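import Pool.Agent.U207.MZ.Quad

/-!
Project MZ (helper207), part G: every affine variety over `ℚ` has the rational points of a chart of a
smooth hypersurface in `P^n × E^m`.
-/

set_option autoImplicit false

namespace Pool.Agent.U207.MZ

open MvPolynomial

section chart

variable {n : ℕ}

/-- the coordinates of the point `(φ(x), t_0)` -/
noncomputable def lift {N m : ℕ} (φ : Fin (N + 1) → MvPolynomial (Fin n) ℚ) :
    Co N m → MvPolynomial (Fin n) ℚ :=
  Sum.elim φ (fun p => if p.2 = 0 then 0 else 1)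

/-- **Charts.** For all finite sets `F` of polynomials over `ℚ`, and for all functions `δ` with even
values `≥ 4`, there is a smooth hypersurface `Y` of multidegree `(δ(N); 2, …, 2)` in `P^N × E^{N+2}`, for
some `N`, such that the rational points of the chart `x_{i0} = 1`, `v_k = 1`, of `Y` are the points
`(φ(x), t_0)` for the rational zeros `x` of `F`, where `φ` is a polynomial map with `φ_{π i} = X_i`. -/
theorem exists_chart (δ : ℕ → ℕ) (hδ : ∀ N, Even (δ N) ∧ 4 ≤ δ N)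
    (F : Finset (MvPolynomial (Fin n) ℚ)) :
    ∃ (N : ℕ) (i0 : Fin (N + 1)) (φ : Fin (N + 1) → MvPolynomial (Fin n) ℚ) (π : Fin n → Fin (N + 1))
      (G : MvPolynomial (Co N (N + 2)) ℚ), IsMulti (δ N) 2 G ∧ SmoothHyp G ∧ φ i0 = 1 ∧
      (∀ i, φ (π i) = X i) ∧
      (∀ q : Co N (N + 2) → ℚ, IsPt q → (∀ i, aeval q (eqs G i) = 0) →
        ∀ k, q (Sum.inr (k, 0)) = 0 ∧ q (Sum.inr (k, 2)) = q (Sum.inr (k, 1))) ∧
      ∀ q : Co N (N + 2) → ℚ, (q (Sum.inl i0) = 1 ∧ (∀ k, q (Sum.inr (k, 1)) = 1) ∧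
        ∀ i, aeval q (eqs G i) = 0) ↔
          ∃ x : Fin n → ℚ, (∀ f ∈ F, eval x f = 0) ∧ q = fun j => eval x (lift φ j) := by
  classical
  obtain ⟨N, i0, κ, _, Q, φ, π, hQ, hφ0, hφπ, hiff⟩ := exists_quad F
  obtain ⟨e, he⟩ : ∃ e, δ N = 2 * (e + 2) := by
    obtain ⟨r, hr⟩ := (hδ N).1
    have := (hδ N).2
    exact ⟨r - 2, by omega⟩
  let P : κ × Fin (N + 1) → MvPolynomial (Fin (N + 1)) ℚ := fun p => X p.2 ^ e * Q p.1
  have hP : ∀ p, (P p).IsHomogeneous (e + 2) := by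
    intro p
    have h1 := (isHomogeneous_X ℚ p.2).pow e
    rw [one_mul] at h1
    exact h1.mul (hQ p.1)
  obtain ⟨G, hG1, hG2, hG3⟩ := exists_hyp (m := N + 2) le_rfl hP
  refine ⟨N, i0, φ, π, G, by rw [he]; exact hG1, hG2, hφ0, hφπ,
    fun q hq h => ((hG3 q hq).1 h).1, ?_⟩
  intro q
  have hPQ : (∃ j, q (Sum.inl j) ≠ 0) → ((∀ p, aeval (fun j => q (Sum.inl j)) (P p) = 0) ↔
      ∀ i, aeval (fun j => q (Sum.inl j)) (Q i) = 0) := by
    rintro ⟨j, hj⟩
    constructor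
    · intro h i
      have := h (i, j)
      simp only [P, map_mul, map_pow, aeval_X] at this
      exact (mul_eq_zero.1 this).resolve_left (pow_ne_zero _ hj)
    · intro h p
      simp only [P, map_mul, h, mul_zero]
  constructor
  · rintro ⟨h1, h2, h3⟩
    have hq : IsPt q := ⟨⟨i0, by rw [h1]; exact one_ne_zero⟩, fun k => ⟨1, by
      rw [h2]; exact one_ne_zero⟩⟩
    obtain ⟨h4, h5⟩ := (hG3 q hq).1 h3
    have h6 := (hiff (fun j => q (Sum.inl j)) h1).1 ((hPQ hq.1).1 h5)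
    refine ⟨fun i => q (Sum.inl (π i)), h6.1, ?_⟩
    funext j
    rcases j with j | ⟨k, c⟩
    · exact h6.2 j
    · simp only [lift, Sum.elim_inr]
      fin_cases c
      · simpa using (h4 k).1
      · simpa using h2 k
      · simpa using (h4 k).2.trans (h2 k)
  · rintro ⟨x, hx, rfl⟩
    have h1 : eval x (lift (m := N + 2) φ (Sum.inl i0)) = 1 := by
      simp [lift, hφ0]
    have h2 : ∀ k : Fin (N + 2), eval x (lift φ (Sum.inr (k, 1))) = 1 := by
      intro k
      simp [lift]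
    have hπ : (fun i => eval x (lift (m := N + 2) φ (Sum.inl (π i)))) = x := by
      funext i
      simp [lift, hφπ]
    refine ⟨h1, h2, ?_⟩
    have hq : IsPt fun j : Co N (N + 2) => eval x (lift φ j) :=
      ⟨⟨i0, h1.trans_ne one_ne_zero⟩, fun k => ⟨1, (h2 k).trans_ne one_ne_zero⟩⟩
    refine (hG3 _ hq).2 ⟨fun k => ⟨by simp [lift], by simp [lift]⟩, ?_⟩
    refine (hPQ hq.1).2 ((hiff _ h1).2 ?_)
    rw [hπ]
    exact ⟨hx, fun j => rfl⟩

end chart

end Pool.Agent.U207.MZ
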