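import Mathlib

/-!
Project MZ (helper207): definitions. Hypersurfaces in `P^n × E^m`, `E` the Fermat cubic.
-/

set_option autoImplicit false

namespace Pool.Agent.U207.MZ

open MvPolynomial

/-- the coordinates `x_0, …, x_n` of `P^n` and `u_k, v_k, w_k` of `m` copies of the projective plane -/
abbrev Co (n m : ℕ) := Fin (n + 1) ⊕ (Fin m × Fin 3)

/-- the equations `u_k ^ 3 + v_k ^ 3 = w_k ^ 3` of `E^m` -/
noncomputable def cub (K : Type) [Field K] {n m : ℕ} (k : Fin m) : MvPolynomial (Co n m) K :=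
  X (Sum.inr (k, 0)) ^ 3 + X (Sum.inr (k, 1)) ^ 3 - X (Sum.inr (k, 2)) ^ 3

/-- coordinates of a point of `P^n × (P^2)^m` -/
def IsPt {R : Type} [Zero R] {n m : ℕ} (z : Co n m → R) : Prop :=
  (∃ j, z (Sum.inl j) ≠ 0) ∧ ∀ k, ∃ c, z (Sum.inr (k, c)) ≠ 0

/-- `G` is multihomogeneous: of degree `D` in `x_0, …, x_n` and of degree `e` in each triple
`u_k, v_k, w_k`. -/
def IsMulti {K : Type} [Field K] {n m : ℕ} (D e : ℕ) (G : MvPolynomial (Co n m) K) : Prop :=
  IsWeightedHomogeneous (Sum.elim (fun _ => 1) (fun _ => 0) : Co n m → ℕ) G D ∧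
    ∀ k, IsWeightedHomogeneous
      (Sum.elim (fun _ => 0) (fun p => if p.1 = k then 1 else 0) : Co n m → ℕ) G e

/-- the equations of the hypersurface `Y = {G = 0}` of `P^n × E^m` -/
noncomputable def eqs {K : Type} [Field K] {n m : ℕ} (G : MvPolynomial (Co n m) K) :
    Option (Fin m) → MvPolynomial (Co n m) K := fun i => i.elim G (cub K)

/-- `Y = {G = 0} ⊆ P^n × E^m` is smooth: at all points of `Y` over extension fields the gradients of
the `m + 1` equations are linearly independent. -/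
def SmoothHyp {K : Type} [Field K] {n m : ℕ} (G : MvPolynomial (Co n m) K) : Prop :=
  ∀ (Ω : Type) [Field Ω] [Algebra K Ω] (z : Co n m → Ω), IsPt z → (∀ i, aeval z (eqs G i) = 0) →
    LinearIndependent Ω fun (i : Option (Fin m)) (j : Co n m) => aeval z (pderiv j (eqs G i))

/-- All rational points of `Y = {G = 0} ⊆ P^n × E^m` are in the fibre over `t_0 = (0 : 1 : 1)^m`. -/
def OneFibre {n m : ℕ} (G : MvPolynomial (Co n m) ℚ) : Prop :=
  ∀ q : Co n m → ℚ, IsPt q → (∀ i, aeval q (eqs G i) = 0) →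
    ∀ k, q (Sum.inr (k, 0)) = 0 ∧ q (Sum.inr (k, 2)) = q (Sum.inr (k, 1))

end Pool.Agent.U207.MZ
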