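import Pool.Agent.U207.MZ.Chart

/-!
Project MZ (helper207), part K: Diophantine sets and the smooth hypersurfaces in `P^n × E^m`.
-/

set_option autoImplicit false

namespace Pool.Agent.U207.MZ

open MvPolynomial

/-- `A ⊆ ℚ` is existentially definable (Diophantine) in `ℚ`. -/
def Dio (A : Set ℚ) : Prop :=
  ∃ n : ℕ, ∃ P : MvPolynomial (Fin (n + 1)) ℤ, ∀ q : ℚ, q ∈ A ↔
    ∃ y : Fin n → ℚ, MvPolynomial.aeval (Fin.cons q y : Fin (n + 1) → ℚ) P = 0

/-- the values of the rational function `x_j / x_i` at the rational points with `x_i ≠ 0` of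
`Y = {G = 0} ⊆ P^n × E^m` -/
def values {n m : ℕ} (G : MvPolynomial (Co n m) ℚ) (i j : Fin (n + 1)) : Set ℚ :=
  {q | ∃ z : Co n m → ℚ, IsPt z ∧ (∀ l, aeval z (eqs G l) = 0) ∧ z (Sum.inl i) ≠ 0 ∧
    q = z (Sum.inl j) / z (Sum.inl i)}

/-- clearing denominators -/
theorem exists_int {τ : Type} (p : MvPolynomial τ ℚ) :
    ∃ (c : ℤ) (P : MvPolynomial τ ℤ), c ≠ 0 ∧ ∀ y : τ → ℚ, aeval y P = (c : ℚ) * eval y p := by
  induction p using MvPolynomial.induction_on with
  | C a =>
    refine ⟨a.den, C a.num, by exact_mod_cast a.den_ne_zero, fun y => ?_⟩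
    rw [algHom_C, eval_C]
    simp only [algebraMap_int_eq, eq_intCast, Int.cast_natCast]
    rw [mul_comm, Rat.mul_den_eq_num]
  | add p q hp hq =>
    obtain ⟨c, P, hc, hP⟩ := hp
    obtain ⟨c', P', hc', hP'⟩ := hq
    refine ⟨c * c', C c' * P + C c * P', mul_ne_zero hc hc', fun y => ?_⟩
    rw [map_add, map_mul, map_mul, algHom_C, algHom_C, hP, hP', map_add]
    simp only [algebraMap_int_eq, eq_intCast, Int.cast_mul]
    ring
  | mul_X p i hp =>
    obtain ⟨c, P, hc, hP⟩ := hp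
    refine ⟨c, P * X i, hc, fun y => ?_⟩
    rw [map_mul, hP, aeval_X, map_mul, eval_X]
    ring

/-- multihomogeneous polynomials: the zeros of `G` may be scaled -/
theorem multi_scale {n m D e : ℕ} {G : MvPolynomial (Co n m) ℚ} (hG : IsMulti D e G) (s : ℚ)
    (hs : s ≠ 0) (b : Fin m → ℚ) (hb : ∀ k, b k ≠ 0) (z : Co n m → ℚ) :
    aeval (fun j : Co n m => (Sum.elim (fun _ => s) (fun p => b p.1) j : ℚ) * z j) G = 0 ↔
      aeval z G = 0 := by
  classical
  have h1 : aeval (fun j : Co n m => (Sum.elim (fun _ => s) (fun p => b p.1) j : ℚ) * z j) G =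
      (s ^ D * ∏ k, b k ^ e) * aeval z G := by
    rw [aeval_def, aeval_def, eval₂_eq', eval₂_eq', Finset.mul_sum]
    refine Finset.sum_congr rfl fun α hα => ?_
    have h2 : ∑ j, α (Sum.inl j) = D := by
      have := hG.1 (mem_support_iff.1 hα)
      rw [Finsupp.weight_apply, Finsupp.sum_fintype _ _ (by simp), Fintype.sum_sum_type] at this
      simpa using this
    have h3 : ∀ k, ∑ c, α (Sum.inr (k, c)) = e := by
      intro k
      have := hG.2 k (mem_support_iff.1 hα)
      rw [Finsupp.weight_apply, Finsupp.sum_fintype _ _ (by simp), Fintype.sum_sum_type,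
        Fintype.sum_prod_type] at this
      simp only [Sum.elim_inl, smul_eq_mul, mul_zero, Finset.sum_const_zero, zero_add,
        Sum.elim_inr, mul_ite, mul_one, Finset.sum_ite_irrel, Finset.sum_ite_eq',
        Finset.mem_univ, if_true] at this
      exact this
    have h4 : ∏ j : Co n m, (Sum.elim (fun _ => s) (fun p => b p.1) j : ℚ) ^ α j =
        s ^ D * ∏ k, b k ^ e := by
      rw [Fintype.prod_sum_type, Fintype.prod_prod_type]
      simp only [Sum.elim_inl, Sum.elim_inr]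
      rw [Finset.prod_pow_eq_pow_sum, h2]
      congr 1
      refine Finset.prod_congr rfl fun k _ => ?_
      rw [Finset.prod_pow_eq_pow_sum, h3]
    simp only [mul_pow, Finset.prod_mul_distrib]
    rw [h4]
    ring
  rw [h1]
  exact mul_eq_zero.trans (or_iff_right (mul_ne_zero (pow_ne_zero _ hs)
    (Finset.prod_ne_zero_iff.2 fun k _ => pow_ne_zero _ (hb k))))

/-- the normalized coordinates of the points of `Y` -/
theorem norm_pt {n m D e : ℕ} {G : MvPolynomial (Co n m) ℚ} (hG : IsMulti D e G)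
    (hO : OneFibre G) {z : Co n m → ℚ} (hz : IsPt z) (hY : ∀ l, aeval z (eqs G l) = 0)
    {i : Fin (n + 1)} (hi : z (Sum.inl i) ≠ 0) :
    aeval (Sum.elim (fun j => z (Sum.inl j) / z (Sum.inl i)) (fun p => if p.2 = 0 then 0 else 1) :
      Co n m → ℚ) G = 0 := by
  classical
  have hB := hO z hz hY
  have hv : ∀ k, z (Sum.inr (k, 1)) ≠ 0 := by
    intro k h0
    obtain ⟨c, hc⟩ := hz.2 k
    have e1 := (hB k).1
    have e2 := (hB k).2
    rw [h0] at e2
    fin_cases c
    · exact hc e1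
    · exact hc h0
    · exact hc e2
  have h1 := (multi_scale hG (z (Sum.inl i))⁻¹ (inv_ne_zero hi) (fun k => (z (Sum.inr (k, 1)))⁻¹)
    (fun k => inv_ne_zero (hv k)) z).2 (hY none)
  have h2 : (Sum.elim (fun j => z (Sum.inl j) / z (Sum.inl i)) (fun p => if p.2 = 0 then 0 else 1) :
      Co n m → ℚ) = fun j : Co n m => (Sum.elim (fun _ => (z (Sum.inl i))⁻¹)
        (fun p => (z (Sum.inr (p.1, 1)))⁻¹) j : ℚ) * z j := ?_
  · rw [h2]
    exact h1
  funext j
  rcases j with j | ⟨k, c⟩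
  · simp only [Sum.elim_inl]
    rw [div_eq_inv_mul]
  · simp only [Sum.elim_inr]
    fin_cases c
    · simp [(hB k).1]
    · simp [hv k]
    · simp [(hB k).2, hv k]

/-- **Diophantine sets.** -/
theorem dio_iff (δ : ℕ → ℕ) (hδ : ∀ N, Even (δ N) ∧ 4 ≤ δ N) (A : Set ℚ) :
    Dio A ↔ ∃ (n : ℕ) (G : MvPolynomial (Co n (n + 2)) ℚ) (i j : Fin (n + 1)),
      IsMulti (δ n) 2 G ∧ SmoothHyp G ∧ OneFibre G ∧ A = values G i j := by
  classical
  constructor
  · rintro ⟨n, P, hP⟩
    obtain ⟨N, i0, φ, π, G, hG1, hG2, -, hφ, hG3, hG⟩ := exists_chart δ hδ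
      ({map (Int.castRingHom ℚ) P} : Finset (MvPolynomial (Fin (n + 1)) ℚ))
    refine ⟨N, G, i0, π 0, hG1, hG2, hG3, ?_⟩
    have hPe : ∀ x : Fin (n + 1) → ℚ, eval x (map (Int.castRingHom ℚ) P) = aeval x P := by
      intro x
      rw [eval_map]
      rfl
    ext q
    rw [hP q]
    constructor
    · rintro ⟨y, hy⟩
      have h1 := (hG (fun j => eval (Fin.cons q y : Fin (n + 1) → ℚ) (lift φ j))).2
        ⟨Fin.cons q y, fun f hf => by
          rw [Finset.mem_singleton.1 hf, hPe, hy], rfl⟩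
      refine ⟨_, ⟨⟨i0, ?_⟩, fun k => ⟨1, ?_⟩⟩, h1.2.2, ?_, ?_⟩
      · rw [h1.1]
        exact one_ne_zero
      · rw [h1.2.1]
        exact one_ne_zero
      · rw [h1.1]
        exact one_ne_zero
      · rw [h1.1, div_one]
        simp [lift, hφ]
    · rintro ⟨z, hz, hY, hi, rfl⟩
      have h1 := norm_pt hG1 hG3 hz hY hi
      obtain ⟨x, hx, hxz⟩ := (hG (Sum.elim (fun j => z (Sum.inl j) / z (Sum.inl i0))
        (fun p => if p.2 = 0 then 0 else 1))).1 ⟨by
          simp only [Sum.elim_inl]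
          exact div_self hi, fun k => by simp, fun l => by
            rcases l with _ | k
            · exact h1
            · change aeval _ (cub ℚ k) = 0
              rw [aeval_cub]
              simp⟩
      have h2 := congrFun hxz (Sum.inl (π 0))
      simp only [Sum.elim_inl, lift, hφ, eval_X] at h2
      refine ⟨fun i => x i.succ, ?_⟩
      have h3 : (Fin.cons (z (Sum.inl (π 0)) / z (Sum.inl i0)) (fun i => x i.succ) :
          Fin (n + 1) → ℚ) = x := by
        funext i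
        refine Fin.cases ?_ (fun j => ?_) i
        · rw [Fin.cons_zero, h2]
        · rw [Fin.cons_succ]
      rw [h3, ← hPe]
      exact hx _ (Finset.mem_singleton_self _)
  · rintro ⟨n, G, i, j, hG1, -, hG3, rfl⟩
    -- the equation in the variables `q`, `x_0`, …, `x_n`
    let θ : Co n (n + 2) → MvPolynomial (Fin (n + 1 + 1)) ℚ :=
      Sum.elim (fun j => X j.succ) (fun p => if p.2 = 0 then 0 else 1)
    let p : MvPolynomial (Fin (n + 1 + 1)) ℚ :=
      (X i.succ - 1) ^ 2 + (X j.succ - X 0) ^ 2 + (aeval θ G) ^ 2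
    obtain ⟨c, P, hc, hP⟩ := exists_int p
    refine ⟨n + 1, P, fun q => ?_⟩
    have hval : ∀ x : Fin (n + 1) → ℚ, eval (Fin.cons q x : Fin (n + 1 + 1) → ℚ) p = 0 ↔
        x i = 1 ∧ x j = q ∧ aeval (Sum.elim x (fun p => if p.2 = 0 then 0 else 1) :
          Co n (n + 2) → ℚ) G = 0 := by
      intro x
      have h1 : eval (Fin.cons q x : Fin (n + 1 + 1) → ℚ) (aeval θ G) =
          aeval (Sum.elim x (fun p => if p.2 = 0 then 0 else 1) : Co n (n + 2) → ℚ) G := by
        have h2 := comp_aeval_apply θ (aeval (Fin.cons q x : Fin (n + 1 + 1) → ℚ)) G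
        have h3 : (fun i => aeval (Fin.cons q x : Fin (n + 1 + 1) → ℚ) (θ i)) =
            (Sum.elim x (fun p => if p.2 = 0 then 0 else 1) : Co n (n + 2) → ℚ) := by
          funext l
          rcases l with l | ⟨k, c⟩
          · simp [θ]
          · simp only [θ, Sum.elim_inr]
            split_ifs <;> simp
        rw [h3] at h2
        exact h2
      simp only [p, map_add, map_pow, map_sub, eval_X, map_one, Fin.cons_succ, Fin.cons_zero, h1]
      generalize aeval (Sum.elim x (fun p => if p.2 = 0 then 0 else 1) : Co n (n + 2) → ℚ) G = w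
      constructor
      · intro h
        have e1 : (x i - 1) ^ 2 = 0 := by
          linarith [sq_nonneg (x i - 1), sq_nonneg (x j - q), sq_nonneg w]
        have e2 : (x j - q) ^ 2 = 0 := by
          linarith [sq_nonneg (x i - 1), sq_nonneg (x j - q), sq_nonneg w]
        have e3 : w ^ 2 = 0 := by
          linarith [sq_nonneg (x i - 1), sq_nonneg (x j - q), sq_nonneg w]
        exact ⟨sub_eq_zero.1 (pow_eq_zero_iff two_ne_zero |>.1 e1),
          sub_eq_zero.1 (pow_eq_zero_iff two_ne_zero |>.1 e2), pow_eq_zero_iff two_ne_zero |>.1 e3⟩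
      · rintro ⟨e1, e2, e3⟩
        rw [e1, e2, e3]
        ring
    have hPp : ∀ x : Fin (n + 1) → ℚ, aeval (Fin.cons q x : Fin (n + 1 + 1) → ℚ) P = 0 ↔
        eval (Fin.cons q x : Fin (n + 1 + 1) → ℚ) p = 0 := by
      intro x
      rw [hP]
      exact mul_eq_zero.trans (or_iff_right (by exact_mod_cast hc))
    simp only [hPp, hval]
    constructor
    · rintro ⟨z, hz, hY, hi, rfl⟩
      exact ⟨fun l => z (Sum.inl l) / z (Sum.inl i), div_self hi, rfl, norm_pt hG1 hG3 hz hY hi⟩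
    · rintro ⟨x, hx1, hx2, hx3⟩
      refine ⟨Sum.elim x (fun p => if p.2 = 0 then 0 else 1), ⟨⟨i, ?_⟩, fun k => ⟨1, ?_⟩⟩, ?_, ?_, ?_⟩
      · simp [hx1]
      · simp
      · rintro (_ | k)
        · exact hx3
        · change aeval _ (cub ℚ k) = 0
          rw [aeval_cub]
          simp
      · simp [hx1]
      · simp [hx1, hx2]

/-- **The integers.** -/
theorem int_iff (δ : ℕ → ℕ) (hδ : ∀ N, Even (δ N) ∧ 4 ≤ δ N) :
    (∃ n : ℕ, ∃ P : MvPolynomial (Fin (n + 1)) ℤ,
      ∀ q : ℚ, (∃ z : ℤ, (z : ℚ) = q) ↔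
        ∃ y : Fin n → ℚ, MvPolynomial.aeval (Fin.cons q y : Fin (n + 1) → ℚ) P = 0) ↔
    ∃ (n : ℕ) (G : MvPolynomial (Co n (n + 2)) ℚ) (i j : Fin (n + 1)),
      IsMulti (δ n) 2 G ∧ SmoothHyp G ∧ OneFibre G ∧
        ∀ q : ℚ, (∃ z : ℤ, (z : ℚ) = q) ↔ q ∈ values G i j := by
  have h := dio_iff δ hδ {q : ℚ | ∃ z : ℤ, (z : ℚ) = q}
  have h1 : ∀ B : Set ℚ, {q : ℚ | ∃ z : ℤ, (z : ℚ) = q} = B ↔
      ∀ q : ℚ, (∃ z : ℤ, (z : ℚ) = q) ↔ q ∈ B := by
    intro B
    rw [Set.ext_iff]
    exact Iff.rfl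
  simp only [h1] at h
  exact h

end Pool.Agent.U207.MZ
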