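import Pool.Agent.U207.MZ.Rat

/-!
Project MZ (helper207), part E: the smooth hypersurfaces in `P^n × E^m` with the rational points of a
given projective variety.
-/

set_option autoImplicit false

namespace Pool.Agent.U207.MZ

open MvPolynomial

section hom

variable {n m : ℕ}

theorem wh_rename {w : Co n m → ℕ} {c : ℕ} (hw : ∀ j, w (Sum.inl j) = c) {d : ℕ}
    {p : MvPolynomial (Fin (n + 1)) ℚ} (hp : p.IsHomogeneous d) :
    IsWeightedHomogeneous w (rename Sum.inl p : MvPolynomial (Co n m) ℚ) (c * d) := by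
  classical
  rw [p.as_sum, map_sum]
  refine IsWeightedHomogeneous.sum _ _ _ fun s hs => ?_
  rw [monomial_eq, map_mul, rename_C, Finsupp.prod_fintype _ _ (fun i => pow_zero _), map_prod]
  refine IsWeightedHomogeneous.C_mul ?_ _
  simp only [map_pow, rename_X]
  have h1 := IsWeightedHomogeneous.prod (w := w) Finset.univ
    (fun i => (X (Sum.inl i) : MvPolynomial (Co n m) ℚ) ^ (s i)) (fun i => s i • w (Sum.inl i))
    (fun i _ => (isWeightedHomogeneous_X ℚ w (Sum.inl i)).pow (s i))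
  have h2 : ∑ i, s i • w (Sum.inl i) = c * d := by
    have h3 : ∑ i, s i = d := by
      have := hp (mem_support_iff.1 hs)
      rw [Finsupp.weight_apply, Finsupp.sum_fintype _ _ (by simp)] at this
      simpa using this
    simp only [hw, smul_eq_mul]
    rw [← Finset.sum_mul, mul_comm, ← h3]
  rwa [h2] at h1

theorem wh_lf {w : Co n m → ℕ} {c : ℕ} (k : Fin m) (hw : ∀ e, w (Sum.inr (k, e)) = c) (e : Fin 3) :
    IsWeightedHomogeneous w (lf ℚ k e : MvPolynomial (Co n m) ℚ) c := by
  have h : ∀ e, IsWeightedHomogeneous w (X (Sum.inr (k, e)) : MvPolynomial (Co n m) ℚ) c := fun e => by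
    have := isWeightedHomogeneous_X ℚ w (Sum.inr (k, e))
    rwa [hw] at this
  fin_cases e
  · exact h 0
  · exact (h 2).sub (h 1)
  · exact h 1

theorem wh_qf {w : Co n m → ℕ} {c : ℕ} (k : Fin m) (hw : ∀ e, w (Sum.inr (k, e)) = c) (e : Fin 6) :
    IsWeightedHomogeneous w (qf ℚ k e : MvPolynomial (Co n m) ℚ) (2 * c) := by
  have h := wh_lf k hw
  have h2 : ∀ e e', IsWeightedHomogeneous w (lf ℚ k e * lf ℚ k e' : MvPolynomial (Co n m) ℚ)
      (2 * c) := fun e e' => by
    have := (h e).mul (h e')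
    rwa [← two_mul] at this
  have h3 : ∀ e, IsWeightedHomogeneous w (lf ℚ k e ^ 2 : MvPolynomial (Co n m) ℚ) (2 * c) :=
    fun e => by
      rw [sq]
      exact h2 e e
  fin_cases e
  · exact h3 0
  · exact h2 0 1
  · exact h2 0 2
  · exact h3 1
  · exact h2 1 2
  · exact h3 2

/-- the weights of the variables: `c` for the `x_j` and `b k` for `u_k`, `v_k`, `w_k` -/
theorem wh_mem {ι : Type} [Fintype ι] {d : ℕ} {P : ι → MvPolynomial (Fin (n + 1)) ℚ}
    (hP : ∀ i, (P i).IsHomogeneous d) (a : Par n m (2 * d) → ℚ) {w : Co n m → ℕ} {c : ℕ}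
    {b : Fin m → ℕ} (hw : ∀ j, w (Sum.inl j) = c) (hb : ∀ k e, w (Sum.inr (k, e)) = b k) :
    IsWeightedHomogeneous w (mem (G0 m d P) a) (c * (2 * d) + ∑ k, 2 * b k) := by
  classical
  have hsq : ∀ (j : Fin m) (e : Fin 3),
      IsWeightedHomogeneous w (X (Sum.inr (j, e)) ^ 2 : MvPolynomial (Co n m) ℚ) (2 * b j) := by
    intro j e
    have := (isWeightedHomogeneous_X ℚ w (Sum.inr (j, e))).pow 2
    rwa [hb] at this
  have hmon : ∀ α : Par n m (2 * d), IsWeightedHomogeneous w
      (mon ℚ α.1.1 α.2 : MvPolynomial (Co n m) ℚ) (c * (2 * d) + ∑ k, 2 * b k) := by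
    intro α
    have h1 := IsWeightedHomogeneous.prod (w := w) Finset.univ
      (fun k => (qf ℚ k (α.1.1 k) : MvPolynomial (Co n m) ℚ)) (fun k => 2 * b k)
      (fun k _ => wh_qf k (hb k) _)
    have h2 := IsWeightedHomogeneous.prod (w := w) Finset.univ
      (fun t : Fin (2 * d) => (X (Sum.inl (α.2 t)) : MvPolynomial (Co n m) ℚ)) (fun _ => c)
      (fun t _ => by
        have := isWeightedHomogeneous_X ℚ w (Sum.inl (α.2 t))
        rwa [hw] at this)
    have h3 := h1.mul h2
    have e : ∑ i, 2 * b i + ∑ _t : Fin (2 * d), c = c * (2 * d) + ∑ i, 2 * b i := by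
      rw [Finset.sum_const, Finset.card_univ, Fintype.card_fin, smul_eq_mul, mul_comm (2 * d) c,
        Nat.add_comm]
    rw [e] at h3
    exact h3
  unfold mem
  refine IsWeightedHomogeneous.add ?_
    (IsWeightedHomogeneous.sum _ _ _ fun α _ => (hmon α).C_mul _)
  unfold G0
  refine IsWeightedHomogeneous.add ?_ ?_
  · have h1 : (∑ i, P i ^ 2).IsHomogeneous (2 * d) :=
      IsHomogeneous.sum _ _ _ fun i _ => by
        rw [mul_comm]
        exact (hP i).pow 2
    exact (wh_rename hw h1).mul (IsWeightedHomogeneous.prod (w := w) Finset.univ _ (fun k => 2 * b k)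
      (fun k _ => hsq k 2))
  · rw [show c * (2 * d) + ∑ k, 2 * b k = ∑ k, 2 * b k + c * (2 * d) from Nat.add_comm _ _]
    refine IsWeightedHomogeneous.mul ?_ ?_
    · unfold psi
      refine IsWeightedHomogeneous.sum _ _ _ fun k _ => ?_
      rw [← Finset.add_sum_erase _ _ (Finset.mem_univ k)]
      refine IsWeightedHomogeneous.mul ?_ ?_
      · exact (wh_lf k (hb k) 1).pow 2
      · exact IsWeightedHomogeneous.prod (w := w) _ _ (fun k => 2 * b k)
          (fun j _ => (hsq j 1).add (hsq j 2))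
    · refine IsWeightedHomogeneous.sum _ _ _ fun j _ => ?_
      have := (isWeightedHomogeneous_X ℚ w (Sum.inl j)).pow (2 * d)
      rw [hw, smul_eq_mul, mul_comm (2 * d) c] at this
      exact this

theorem multi_mem {ι : Type} [Fintype ι] {d : ℕ} {P : ι → MvPolynomial (Fin (n + 1)) ℚ}
    (hP : ∀ i, (P i).IsHomogeneous d) (a : Par n m (2 * d) → ℚ) :
    IsMulti (2 * d) 2 (mem (G0 m d P) a) := by
  classical
  constructor
  · have := wh_mem hP a (w := Sum.elim (fun _ => 1) (fun _ => 0)) (c := 1) (b := fun _ => 0)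
      (fun _ => rfl) (fun _ _ => rfl)
    simpa using this
  · intro k
    have := wh_mem hP a (w := Sum.elim (fun _ => 0) (fun p => if p.1 = k then 1 else 0)) (c := 0)
      (b := fun j => if j = k then 1 else 0) (fun _ => rfl) (fun _ _ => rfl)
    simpa using this

end hom

section val

variable {n m d : ℕ} {ι : Type} [Fintype ι]

theorem eval_mem {K : Type} [Field K] {R : Type} [CommRing R] [Algebra K R] {D : ℕ}
    (F : MvPolynomial (Co n m) K) (a : Par n m D → K) (z : Co n m → R) :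
    aeval z (mem F a) = aeval z F + ∑ α, algebraMap K R (a α) * aeval z (mon K α.1.1 α.2) := by
  unfold mem
  simp only [map_add, map_sum, map_mul, algHom_C]

theorem pder_mem {K : Type} [Field K] {R : Type} [CommRing R] [Algebra K R] {D : ℕ}
    (F : MvPolynomial (Co n m) K) (a : Par n m D → K) (z : Co n m → R) (j : Co n m) :
    aeval z (pderiv j (mem F a)) = aeval z (pderiv j F) +
      ∑ α, algebraMap K R (a α) * aeval z (pderiv j (mon K α.1.1 α.2)) := by
  unfold mem
  simp only [map_add, map_sum, Derivation.leibniz, pderiv_C, smul_eq_mul, mul_zero, add_zero,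
    map_mul, algHom_C]

/-- **Rational points in the other fibres.** -/
theorem pos_fib (P : ι → MvPolynomial (Fin (n + 1)) ℚ) {a : Par n m (2 * d) → ℚ}
    (ha : ∑ α, |a α| < 1) {z : Co n m → ℚ} (hz : IsPt z) (hc : ∀ k, aeval z (cub ℚ k) = 0)
    (hB : ¬ Bs z) : 0 < aeval z (mem (G0 m d P) a) := by
  classical
  have ht : ∀ k, (fun c => z (Sum.inr (k, c))) ≠ 0 := by
    intro k h0
    obtain ⟨c, hcc⟩ := hz.2 k
    exact hcc (congrFun h0 c)
  choose l hl0 hl using fun k => cub_rat (ht k) (by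
    have := hc k
    rwa [aeval_cub] at this)
  set S := ∑ j, z (Sum.inl j) ^ (2 * d) with hS
  have hSpos : 0 < S := sum_pos' (x := fun j => z (Sum.inl j)) hz.1
  set Λ := ∏ k, l k ^ 2 with hΛ
  have hΛpos : 0 < Λ := Finset.prod_pos fun k _ => by
    have := hl0 k
    positivity
  have hq : ∀ k e, |qv (fun c => z (Sum.inr (k, c))) e| ≤ l k ^ 2 := by
    intro k e
    have hlv : ∀ e, |lv (fun c => z (Sum.inr (k, c))) e| ≤ |l k| := by
      intro e
      rcases hl k with ⟨h0, h1, h2⟩ | ⟨h0, h1, h2⟩ | ⟨h0, h1, h2⟩ <;>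
        fin_cases e <;> simp [lv, h0, h1, h2]
    have hm : ∀ e e', |lv (fun c => z (Sum.inr (k, c))) e * lv (fun c => z (Sum.inr (k, c))) e'| ≤
        l k ^ 2 := by
      intro e e'
      rw [abs_mul, ← sq_abs, sq]
      exact mul_le_mul (hlv e) (hlv e') (abs_nonneg _) (abs_nonneg _)
    have hs : ∀ e, |lv (fun c => z (Sum.inr (k, c))) e ^ 2| ≤ l k ^ 2 := fun e => by
      rw [sq]
      exact hm e e
    fin_cases e
    · exact hs 0
    · exact hm 0 1
    · exact hm 0 2
    · exact hs 1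
    · exact hm 1 2
    · exact hs 2
  have hmon : ∀ α : Par n m (2 * d), |aeval z (mon ℚ α.1.1 α.2)| ≤ Λ * S := by
    intro α
    rw [aeval_mon, abs_mul, Finset.abs_prod]
    refine mul_le_mul (Finset.prod_le_prod (fun _ _ => abs_nonneg _) fun k _ => hq k _)
      (mono_le (fun j => z (Sum.inl j)) α.2) (abs_nonneg _) hΛpos.le
  have hsum : |∑ α : Par n m (2 * d), algebraMap ℚ ℚ (a α) * aeval z (mon ℚ α.1.1 α.2)| ≤
      (∑ α, |a α|) * (Λ * S) := by
    refine (Finset.abs_sum_le_sum_abs _ _).trans ?_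
    rw [Finset.sum_mul]
    refine Finset.sum_le_sum fun α _ => ?_
    rw [abs_mul]
    exact mul_le_mul_of_nonneg_left (hmon α) (abs_nonneg _)
  have hvw : ∀ j, l j ^ 2 ≤ z (Sum.inr (j, 1)) ^ 2 + z (Sum.inr (j, 2)) ^ 2 := by
    intro j
    rcases hl j with ⟨h0, h1, h2⟩ | ⟨h0, h1, h2⟩ | ⟨h0, h1, h2⟩ <;> rw [h1, h2] <;>
      nlinarith [sq_nonneg (l j)]
  have hpsi : Λ ≤ ∑ k : Fin m, (z (Sum.inr (k, 2)) - z (Sum.inr (k, 1))) ^ 2 *
        ∏ j ∈ Finset.univ.erase k, (z (Sum.inr (j, 1)) ^ 2 + z (Sum.inr (j, 2)) ^ 2) := by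
    have : ∃ k, ¬ (z (Sum.inr (k, 0)) = 0 ∧ z (Sum.inr (k, 2)) = z (Sum.inr (k, 1))) := by
      by_contra hcon
      push Not at hcon
      exact hB hcon
    obtain ⟨k, hk⟩ := this
    have h1 : l k ^ 2 ≤ (z (Sum.inr (k, 2)) - z (Sum.inr (k, 1))) ^ 2 := by
      rcases hl k with ⟨h0, h1, h2⟩ | ⟨h0, h1, h2⟩ | ⟨h0, h1, h2⟩
      · exact absurd ⟨h0, h2.trans h1.symm⟩ hk
      · rw [h1, h2, sub_zero]
      · rw [h1, h2, zero_sub, neg_neg]
    have h2 : Λ ≤ (z (Sum.inr (k, 2)) - z (Sum.inr (k, 1))) ^ 2 *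
        ∏ j ∈ Finset.univ.erase k, (z (Sum.inr (j, 1)) ^ 2 + z (Sum.inr (j, 2)) ^ 2) := by
      rw [hΛ, ← Finset.mul_prod_erase Finset.univ _ (Finset.mem_univ k)]
      refine mul_le_mul h1 (Finset.prod_le_prod (fun _ _ => sq_nonneg _) fun j _ => hvw j)
        (Finset.prod_nonneg fun _ _ => sq_nonneg _) (sq_nonneg _)
    refine h2.trans (Finset.single_le_sum (f := fun k =>
      (z (Sum.inr (k, 2)) - z (Sum.inr (k, 1))) ^ 2 *
        ∏ j ∈ Finset.univ.erase k, (z (Sum.inr (j, 1)) ^ 2 + z (Sum.inr (j, 2)) ^ 2))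
      (fun j _ => mul_nonneg (sq_nonneg _) (Finset.prod_nonneg fun _ _ => by positivity))
      (Finset.mem_univ k))
  rw [eval_mem, aeval_G0]
  have h1 : 0 ≤ (∑ i, aeval (fun j => z (Sum.inl j)) (P i) ^ 2) *
      ∏ k : Fin m, z (Sum.inr (k, 2)) ^ 2 :=
    mul_nonneg (Finset.sum_nonneg fun _ _ => sq_nonneg _) (Finset.prod_nonneg fun _ _ => sq_nonneg _)
  have h2 := mul_le_mul_of_nonneg_right hpsi hSpos.le
  have h3 := (abs_le.1 hsum).1
  have h4 : (∑ α, |a α|) * (Λ * S) < Λ * S := by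
    have : 0 < Λ * S := mul_pos hΛpos hSpos
    nlinarith
  linarith

/-- the fibre over the base point -/
theorem base_fib (P : ι → MvPolynomial (Fin (n + 1)) ℚ) (a : Par n m (2 * d) → ℚ) {R : Type}
    [CommRing R] [Algebra ℚ R] {z : Co n m → R} (hB : Bs z) :
    aeval z (mem (G0 m d P) a) = (∑ i, aeval (fun j => z (Sum.inl j)) (P i) ^ 2) *
      ∏ k : Fin m, z (Sum.inr (k, 2)) ^ 2 := by
  classical
  rw [eval_mem, aeval_G0]
  have h1 : ∑ k : Fin m, (z (Sum.inr (k, 2)) - z (Sum.inr (k, 1))) ^ 2 *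
        ∏ j ∈ Finset.univ.erase k, (z (Sum.inr (j, 1)) ^ 2 + z (Sum.inr (j, 2)) ^ 2) = 0 :=
    Finset.sum_eq_zero fun k _ => by
      rw [(hB k).2, sub_self]
      ring
  have h2 : ∀ α : Par n m (2 * d), aeval z (mon ℚ α.1.1 α.2) = 0 := by
    intro α
    rw [aeval_mon]
    obtain ⟨k, hk⟩ := Function.ne_iff.1 α.1.2
    rw [Finset.prod_eq_zero (Finset.mem_univ k), zero_mul]
    have e0 := (hB k).1
    have e1 := (hB k).2
    generalize α.1.1 k = e at hk
    fin_cases e
    · simp [qv, lv, e0]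
    · simp [qv, lv, e0]
    · simp [qv, lv, e0]
    · simp [qv, lv, e1]
    · simp [qv, lv, e1]
    · exact absurd rfl hk
  have h3 : ∑ α : Par n m (2 * d), algebraMap ℚ R (a α) * aeval z (mon ℚ α.1.1 α.2) = 0 :=
    Finset.sum_eq_zero fun α _ => by rw [h2, mul_zero]
  rw [h1, h3]
  ring

/-- **The hypersurfaces.** For forms `P_i` of degree `d` over `ℚ` and `m ≥ n + 2` there is a smooth
hypersurface `Y` of multidegree `(2 d; 2, …, 2)` in `P^n × E^m` over `ℚ`, `E` the Fermat cubic, whose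
rational points are the points `(x, t_0)`, `P_i(x) = 0` for all `i`, with `t_0 = (0 : 1 : 1)^m`. -/
theorem exists_hyp (hm : n + 2 ≤ m) {P : ι → MvPolynomial (Fin (n + 1)) ℚ}
    (hP : ∀ i, (P i).IsHomogeneous d) :
    ∃ G : MvPolynomial (Co n m) ℚ, IsMulti (2 * d) 2 G ∧ SmoothHyp G ∧
      ∀ z : Co n m → ℚ, IsPt z → ((∀ i, aeval z (eqs G i) = 0) ↔
        (∀ k, z (Sum.inr (k, 0)) = 0 ∧ z (Sum.inr (k, 2)) = z (Sum.inr (k, 1))) ∧
          ∀ i, aeval (fun j => z (Sum.inl j)) (P i) = 0) := by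
  classical
  obtain ⟨Δ, hΔ, h⟩ := exists_disc (K := ℚ) (D := 2 * d) hm (G0 := G0 m d P)
    (fun Ω _ _ z _ k => by rw [pder_G0, map_zero])
  have hcard : (0 : ℚ) < Fintype.card (Par n m (2 * d)) + 1 := by positivity
  obtain ⟨a, ha, haΔ⟩ : ∃ a : Par n m (2 * d) → ℚ,
      (∀ α, a α ∈ Set.Icc (0 : ℚ) (1 / (Fintype.card (Par n m (2 * d)) + 1))) ∧ eval a Δ ≠ 0 := by
    by_contra hcon
    push Not at hcon
    apply hΔ
    refine MvPolynomial.funext_set (fun _ => Set.Icc (0 : ℚ) (1 / (Fintype.card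
      (Par n m (2 * d)) + 1))) (fun _ => Set.Icc_infinite (by positivity)) fun x hx => ?_
    rw [hcon x fun α => hx α (Set.mem_univ α), map_zero]
  have hsum : ∑ α, |a α| < 1 := by
    calc ∑ α, |a α| ≤ ∑ _α : Par n m (2 * d), 1 / ((Fintype.card (Par n m (2 * d)) : ℚ) + 1) :=
          Finset.sum_le_sum fun α _ => by
            rw [abs_of_nonneg (ha α).1]
            exact (ha α).2
      _ = Fintype.card (Par n m (2 * d)) / ((Fintype.card (Par n m (2 * d)) : ℚ) + 1) := by
          rw [Finset.sum_const, Finset.card_univ, nsmul_eq_mul, mul_one_div]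
      _ < 1 := by
          rw [div_lt_one hcard]
          linarith
  refine ⟨mem (G0 m d P) a, multi_mem hP a, ?_, ?_⟩
  · intro Ω _ _ z hz hY
    have hx : (fun j => z (Sum.inl j)) ≠ 0 := fun h0 => by
      obtain ⟨j, hj⟩ := hz.1
      exact hj (congrFun h0 j)
    have ht : ∀ k, (fun c => z (Sum.inr (k, c))) ≠ 0 := fun k h0 => by
      obtain ⟨c, hc⟩ := hz.2 k
      exact hc (congrFun h0 c)
    have haΩ : aeval (fun α => algebraMap ℚ Ω (a α)) Δ ≠ 0 := by
      have e := aeval_algebraMap_apply Ω a Δ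
      change aeval (⇑(algebraMap ℚ Ω) ∘ a) Δ ≠ 0
      rw [e]
      exact (map_ne_zero_iff _ (algebraMap ℚ Ω).injective).2 (by
        rw [← MvPolynomial.coe_aeval_eq_eval] at haΔ
        exact haΔ)
    rw [Fintype.linearIndependent_iff]
    intro g hg
    have hg' : ∀ j, g none * aeval z (pderiv j (mem (G0 m d P) a)) +
        ∑ k, g (some k) * aeval z (pderiv j (cub ℚ k)) = 0 := by
      intro j
      have := congrFun hg j
      simpa only [Finset.sum_apply, Pi.smul_apply, smul_eq_mul, Pi.zero_apply,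
        Fintype.sum_option, eqs, Option.elim_none, Option.elim_some] using this
    have hν : g none = 0 := by
      refine h Ω (fun α => algebraMap ℚ Ω (a α)) z (g none) (fun k => g (some k)) haΩ hx ht ?_
      rintro (i | k | j)
      · have := hY none
        simp only [eqs, Option.elim_none] at this
        rw [eval_mem] at this
        exact this
      · exact hY (some k)
      · have := hg' j
        rw [pder_mem] at this
        exact this
    intro i
    rcases i with _ | k
    · exact hν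
    · obtain ⟨c, hc⟩ := hz.2 k
      have := hg' (Sum.inr (k, c))
      rw [hν, zero_mul, zero_add, Finset.sum_eq_single k] at this
      · rw [pder_cub_r, if_pos rfl] at this
        refine (mul_eq_zero.1 this).resolve_right (mul_ne_zero ?_ (pow_ne_zero 2 hc))
        have hch : CharZero Ω := charZero_of_injective_algebraMap (algebraMap ℚ Ω).injective
        have h3 : (3 : Ω) ≠ 0 := three_ne_zero
        fin_cases c <;> simp [h3]
      · intro k' _ hk'
        rw [pder_cub_r, if_neg hk', mul_zero]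
      · intro hh
        exact absurd (Finset.mem_univ _) hh
  · intro z hz
    have hw : Bs z → ∏ k : Fin m, z (Sum.inr (k, 2)) ^ 2 ≠ 0 := by
      intro hB
      refine Finset.prod_ne_zero_iff.2 fun k _ => pow_ne_zero 2 fun h0 => ?_
      obtain ⟨c, hc⟩ := hz.2 k
      have e1 := (hB k).1
      have e2 := (hB k).2
      rw [h0] at e2
      fin_cases c
      · exact hc e1
      · exact hc e2.symm
      · exact hc h0
    constructor
    · intro hY
      have hc : ∀ k, aeval z (cub ℚ k) = 0 := fun k => hY (some k)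
      have hG : aeval z (mem (G0 m d P) a) = 0 := hY none
      have hB : Bs z := by
        by_contra hB
        exact (pos_fib P hsum hz hc hB).ne' hG
      refine ⟨hB, fun i => ?_⟩
      rw [base_fib P a hB] at hG
      have h1 := (mul_eq_zero.1 hG).resolve_right (hw hB)
      rw [Finset.sum_eq_zero_iff_of_nonneg fun _ _ => sq_nonneg _] at h1
      exact pow_eq_zero_iff (two_ne_zero) |>.1 (h1 i (Finset.mem_univ i))
    · rintro ⟨hB, hP0⟩ i
      rcases i with _ | k
      · change aeval z (mem (G0 m d P) a) = 0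
        rw [base_fib P a hB, Finset.sum_eq_zero fun i _ => by rw [hP0]; ring, zero_mul]
      · change aeval z (cub ℚ k) = 0
        rw [aeval_cub, (hB k).1, (hB k).2]
        ring

end val

end Pool.Agent.U207.MZ
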