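import Pool.Agent.U207.MZ.Gen
import Pool.Agent.U207.MZ.Defs

/-!
Project MZ (helper207), part B: hypersurfaces of multidegree `(D; 2, …, 2)` in `P^n × E^m`, `E` the Fermat
cubic, with a prescribed fibre: smoothness for general coefficients.
-/

set_option autoImplicit false

namespace Pool.Agent.U207.MZ

open MvPolynomial

section defs

variable {n m D : ℕ}

/-- the linear forms `u_k`, `w_k - v_k`, `v_k` -/
noncomputable def lf (K : Type) [Field K] {n m : ℕ} (k : Fin m) : Fin 3 → MvPolynomial (Co n m) K :=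
  ![X (Sum.inr (k, 0)), X (Sum.inr (k, 2)) - X (Sum.inr (k, 1)), X (Sum.inr (k, 1))]

/-- their products -/
noncomputable def qf (K : Type) [Field K] {n m : ℕ} (k : Fin m) : Fin 6 → MvPolynomial (Co n m) K :=
  ![lf K k 0 ^ 2, lf K k 0 * lf K k 1, lf K k 0 * lf K k 2, lf K k 1 ^ 2, lf K k 1 * lf K k 2,
    lf K k 2 ^ 2]

/-- the coefficients -/
abbrev Par (n m D : ℕ) := {q : Fin m → Fin 6 // q ≠ fun _ => 5} × (Fin D → Fin (n + 1))

/-- the monomials -/
noncomputable def mon (K : Type) [Field K] (q : Fin m → Fin 6) (β : Fin D → Fin (n + 1)) :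
    MvPolynomial (Co n m) K := (∏ k, qf K k (q k)) * ∏ t, X (Sum.inl (β t))

/-- the members of the linear system -/
noncomputable def mem {K : Type} [Field K] (G0 : MvPolynomial (Co n m) K) (a : Par n m D → K) :
    MvPolynomial (Co n m) K := G0 + ∑ α, C (a α) * mon K α.1.1 α.2

end defs

section ev

variable {K : Type} [Field K] {n m D : ℕ} {R : Type} [CommRing R] [Algebra K R]

/-- the values of the linear forms -/
def lv (t : Fin 3 → R) : Fin 3 → R := ![t 0, t 2 - t 1, t 1]

/-- the values of their products -/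
def qv (t : Fin 3 → R) : Fin 6 → R :=
  ![lv t 0 ^ 2, lv t 0 * lv t 1, lv t 0 * lv t 2, lv t 1 ^ 2, lv t 1 * lv t 2, lv t 2 ^ 2]

theorem aeval_lf (z : Co n m → R) (k : Fin m) (e : Fin 3) :
    aeval z (lf K k e) = lv (fun c => z (Sum.inr (k, c))) e := by
  fin_cases e <;> simp [lf, lv]

theorem aeval_qf (z : Co n m → R) (k : Fin m) (e : Fin 6) :
    aeval z (qf K k e) = qv (fun c => z (Sum.inr (k, c))) e := by
  fin_cases e <;> simp [qf, qv, aeval_lf]

theorem aeval_mon (z : Co n m → R) (q : Fin m → Fin 6) (β : Fin D → Fin (n + 1)) :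
    aeval z (mon K q β) =
      (∏ k, qv (fun c => z (Sum.inr (k, c))) (q k)) * ∏ t, z (Sum.inl (β t)) := by
  unfold mon
  rw [map_mul, map_prod, map_prod]
  simp only [aeval_qf, aeval_X]

theorem aeval_cub (z : Co n m → R) (k : Fin m) :
    aeval z (cub K k) =
      z (Sum.inr (k, 0)) ^ 3 + z (Sum.inr (k, 1)) ^ 3 - z (Sum.inr (k, 2)) ^ 3 := by
  simp [cub]

theorem pder_cub_l (k : Fin m) (j : Fin (n + 1)) : pderiv (Sum.inl j) (cub K k) = 0 := by
  unfold cub
  rw [map_sub, map_add, Derivation.leibniz_pow, Derivation.leibniz_pow, Derivation.leibniz_pow,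
    pderiv_X_of_ne (by simp), pderiv_X_of_ne (by simp), pderiv_X_of_ne (by simp)]
  simp

theorem pder_cub_r (z : Co n m → R) (k k' : Fin m) (c : Fin 3) :
    aeval z (pderiv (Sum.inr (k', c)) (cub K k)) =
      if k = k' then (![3, 3, -3] : Fin 3 → R) c * z (Sum.inr (k, c)) ^ 2 else 0 := by
  classical
  unfold cub
  rw [map_sub, map_add, Derivation.leibniz_pow, Derivation.leibniz_pow, Derivation.leibniz_pow,
    pderiv_X, pderiv_X, pderiv_X]
  by_cases hk : k = k'
  · subst hk
    rw [if_pos rfl]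
    fin_cases c <;> simp
  · rw [if_neg hk]
    simp [hk]

/-- base points -/
def Bs (z : Co n m → R) : Prop :=
  ∀ k, z (Sum.inr (k, 0)) = 0 ∧ z (Sum.inr (k, 2)) = z (Sum.inr (k, 1))

/-- the derivatives of the monomials at the base points -/
theorem pder_mon {z : Co n m → R} (hz : Bs z) (k : Fin m) (q : Fin m → Fin 6)
    (β : Fin D → Fin (n + 1)) :
    aeval z (pderiv (Sum.inr (k, 0)) (mon K q β)) =
      if q = Function.update (fun _ => 5) k 2 then
        (z (Sum.inr (k, 1)) * ∏ j ∈ Finset.univ.erase k, z (Sum.inr (j, 1)) ^ 2) *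
          ∏ t, z (Sum.inl (β t)) else 0 := by
  classical
  have h1 : pderiv (Sum.inr (k, 0)) (∏ t, X (Sum.inl (β t)) : MvPolynomial (Co n m) K) = 0 := by
    apply pderiv_eq_zero_of_notMem_vars
    intro hmem
    have h2 := vars_prod (fun t => (X (Sum.inl (β t)) : MvPolynomial (Co n m) K)) hmem
    rw [Finset.mem_biUnion] at h2
    obtain ⟨t, -, ht⟩ := h2
    rw [vars_X, Finset.mem_singleton] at ht
    simp at ht
  have h2 : ∀ j, j ≠ k → ∀ e, pderiv (Sum.inr (k, 0)) (qf K j e : MvPolynomial (Co n m) K) = 0 := by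
    intro j hj e
    have hl : ∀ e, pderiv (Sum.inr (k, 0)) (lf K j e : MvPolynomial (Co n m) K) = 0 := by
      intro e
      fin_cases e
      · simp only [lf, Fin.zero_eta, Matrix.cons_val_zero]
        exact pderiv_X_of_ne (by simp [hj])
      · simp only [lf, Fin.mk_one, Matrix.cons_val_one, Matrix.cons_val_zero]
        rw [map_sub, pderiv_X_of_ne (by simp), pderiv_X_of_ne (by simp), sub_zero]
      · simp only [lf, Fin.reduceFinMk, Matrix.cons_val]
        exact pderiv_X_of_ne (by simp)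
    fin_cases e <;> simp [qf, Derivation.leibniz, Derivation.leibniz_pow, hl]
  have h3 : pderiv (Sum.inr (k, 0)) (∏ j ∈ Finset.univ.erase k, qf K j (q j) :
      MvPolynomial (Co n m) K) = 0 := by
    refine Finset.prod_induction _ (fun p => pderiv (Sum.inr (k, 0)) p = 0) (fun a b ha hb => ?_)
      (by simp) (fun j hj => h2 j (Finset.ne_of_mem_erase hj) _)
    rw [Derivation.leibniz, ha, hb]
    simp
  have h4 : ∀ e : Fin 6, aeval z (pderiv (Sum.inr (k, 0)) (qf K k e : MvPolynomial (Co n m) K)) =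
      if e = 2 then z (Sum.inr (k, 1)) else 0 := by
    intro e
    have hz1 := (hz k).1
    have hz2 := (hz k).2
    have l0 : pderiv (Sum.inr (k, 0)) (X (Sum.inr (k, 0)) : MvPolynomial (Co n m) K) = 1 :=
      pderiv_X_self _
    have l1 : pderiv (Sum.inr (k, 0)) (X (Sum.inr (k, 1)) : MvPolynomial (Co n m) K) = 0 :=
      pderiv_X_of_ne (by simp)
    have l2 : pderiv (Sum.inr (k, 0)) (X (Sum.inr (k, 2)) : MvPolynomial (Co n m) K) = 0 :=
      pderiv_X_of_ne (by simp)
    fin_cases e <;> simp [qf, lf, Derivation.leibniz, Derivation.leibniz_pow, l0, l1, l2, hz1, hz2]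
  have h5 : ∀ j ∈ Finset.univ.erase k, qv (fun c => z (Sum.inr (j, c))) (q j) =
      if q j = 5 then z (Sum.inr (j, 1)) ^ 2 else 0 := by
    intro j _
    have hz1 := (hz j).1
    have hz2 := (hz j).2
    generalize q j = e
    fin_cases e <;> simp [qv, lv, hz1, hz2]
  unfold mon
  rw [← Finset.mul_prod_erase Finset.univ _ (Finset.mem_univ k), Derivation.leibniz, h1,
    Derivation.leibniz, h3]
  simp only [zero_add, smul_eq_mul, mul_zero, map_mul, h4, map_prod, aeval_X, aeval_qf]
  rw [Finset.prod_congr rfl h5]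
  by_cases hq : q = Function.update (fun _ => 5) k 2
  · rw [if_pos hq, hq]
    simp only [Function.update_self, if_true]
    have h6 : ∏ j ∈ Finset.univ.erase k, (if Function.update (fun _ => (5 : Fin 6)) k 2 j = 5 then
        z (Sum.inr (j, 1)) ^ 2 else 0) = ∏ j ∈ Finset.univ.erase k, z (Sum.inr (j, 1)) ^ 2 := by
      refine Finset.prod_congr rfl fun j hj => ?_
      rw [Function.update_of_ne (Finset.ne_of_mem_erase hj), if_pos rfl]
    rw [h6]
    ring
  · rw [if_neg hq]
    by_cases hk : q k = 2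
    · obtain ⟨j, hj⟩ : ∃ j, j ≠ k ∧ q j ≠ 5 := by
        by_contra hcon
        push Not at hcon
        apply hq
        funext j
        by_cases hjk : j = k
        · rw [hjk, Function.update_self, hk]
        · rw [Function.update_of_ne hjk, hcon j hjk]
      rw [Finset.prod_eq_zero (Finset.mem_erase.2 ⟨hj.1, Finset.mem_univ j⟩) (if_neg hj.2)]
      simp
    · rw [if_neg hk]
      simp

end ev

end Pool.Agent.U207.MZ
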