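import Mathlib
import Pool.Agent.H135R2.VS.Der
import Pool.Agent.N254.SQ.Spec

/-!
Project MZ (helper207), part A: general members of linear systems, by derivations.
-/

set_option autoImplicit false

namespace Pool.Agent.U207.MZ

open MvPolynomial

/-- the chain rule -/
theorem chain {K : Type} [Field K] {R : Type} [CommRing R] [Algebra K R] {σ : Type} [Fintype σ]
    (D : Derivation K R R) (z : σ → R) (p : MvPolynomial σ K) :
    D (aeval z p) = ∑ j, aeval z (pderiv j p) * D (z j) := by
  classical
  induction p using MvPolynomial.induction_on with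
  | C a => simp
  | add p q hp hq =>
    simp only [map_add, add_mul, Finset.sum_add_distrib, hp, hq]
  | mul_X p i hp =>
    rw [map_mul, aeval_X, Derivation.leibniz, hp, smul_eq_mul, smul_eq_mul]
    have h1 : ∀ j, aeval z (pderiv j (p * X i)) * D (z j) =
        z i * (aeval z (pderiv j p) * D (z j)) +
          (if i = j then aeval z p * D (z j) else 0) := by
      intro j
      rw [Derivation.leibniz, pderiv_X, Pi.single_apply]
      by_cases hij : i = j
      · subst hij
        simp only [smul_eq_mul, if_true, map_add, map_mul, aeval_X, map_one]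
        ring
      · rw [if_neg hij, if_neg hij]
        simp only [smul_eq_mul, mul_zero, zero_add, map_mul, aeval_X]
        ring
    rw [Finset.sum_congr rfl fun j _ => h1 j, Finset.sum_add_distrib, Finset.sum_ite_eq,
      if_pos (Finset.mem_univ _), ← Finset.mul_sum]
    ring

section gen

variable {K : Type} [Field K] [CharZero K] {Ω : Type} [Field Ω] [Algebra K Ω]

omit [CharZero K] in
/-- the derivative of the value of a general member -/
theorem der_mem {σ A : Type} [Fintype σ] [Fintype A]
    (G0 : MvPolynomial σ K) (M : A → MvPolynomial σ K) {a : A → Ω} (D : Derivation K Ω Ω)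
    (z : σ → Ω) :
    D (aeval z G0 + ∑ α, a α * aeval z (M α)) =
      ∑ j, (aeval z (pderiv j G0) + ∑ α, a α * aeval z (pderiv j (M α))) * D (z j) +
        ∑ α, D (a α) * aeval z (M α) := by
  rw [map_add, map_sum, chain]
  simp only [Derivation.leibniz, smul_eq_mul, chain, add_mul, Finset.sum_add_distrib,
    Finset.mul_sum, Finset.sum_mul]
  rw [add_assoc]
  congr 1
  congr 1
  · rw [Finset.sum_comm]
    refine Finset.sum_congr rfl fun j _ => Finset.sum_congr rfl fun α _ => ?_
    ring
  · refine Finset.sum_congr rfl fun α _ => ?_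
    ring

/-- general members of a linear system: the singular points are base points -/
theorem gen_base {σ κ A : Type} [Fintype σ] [Fintype κ] [Fintype A]
    (G0 : MvPolynomial σ K) (M : A → MvPolynomial σ K) (c : κ → MvPolynomial σ K)
    {a : A → Ω} (ha : AlgebraicIndependent K a) {z : σ → Ω} {ν : Ω} {μ : κ → Ω}
    (h1 : aeval z G0 + ∑ α, a α * aeval z (M α) = 0) (h2 : ∀ k, aeval z (c k) = 0)
    (h3 : ∀ j, ν * (aeval z (pderiv j G0) + ∑ α, a α * aeval z (pderiv j (M α))) +
      ∑ k, μ k * aeval z (pderiv j (c k)) = 0) (α : A) :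
    ν * aeval z (M α) = 0 := by
  classical
  obtain ⟨D, hD⟩ := Pool.Agent.H135R2.VS.exists_der ha (fun p => if p = α then 1 else 0)
  have e1 := der_mem G0 M (a := a) D z
  rw [h1, map_zero] at e1
  simp only [hD, ite_mul, one_mul, zero_mul, Finset.sum_ite_eq', Finset.mem_univ, if_true] at e1
  have e3 : ∀ k, ∑ j, aeval z (pderiv j (c k)) * D (z j) = 0 := fun k => by
    rw [← chain, h2, map_zero]
  have e4 : ∑ j, (ν * (aeval z (pderiv j G0) + ∑ α, a α * aeval z (pderiv j (M α))) +
      ∑ k, μ k * aeval z (pderiv j (c k))) * D (z j) = 0 :=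
    Finset.sum_eq_zero fun j _ => by rw [h3, zero_mul]
  have e5 : ∑ j, (∑ k, μ k * aeval z (pderiv j (c k))) * D (z j) = 0 := by
    simp only [Finset.sum_mul]
    rw [Finset.sum_comm]
    refine Finset.sum_eq_zero fun k _ => ?_
    have : ∀ j, μ k * aeval z (pderiv j (c k)) * D (z j) =
        μ k * (aeval z (pderiv j (c k)) * D (z j)) := fun j => by ring
    rw [Finset.sum_congr rfl fun j _ => this j, ← Finset.mul_sum, e3, mul_zero]
  simp only [add_mul _ _ (D _), Finset.sum_add_distrib, e5, add_zero] at e4
  have e6 : ν * ∑ j, (aeval z (pderiv j G0) + ∑ α, a α * aeval z (pderiv j (M α))) * D (z j) =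
      0 := by
    rw [← e4, Finset.mul_sum]
    refine Finset.sum_congr rfl fun j _ => ?_
    ring
  have e7 : ν * aeval z (M α) = ν * 0 - ν * ∑ j, (aeval z (pderiv j G0) +
      ∑ α, a α * aeval z (pderiv j (M α))) * D (z j) := by
    rw [e1]
    ring
  rw [e7, e6, mul_zero, sub_zero]

/-- more than `n + 1` general forms in `n + 1` variables have no common zero -/
theorem gen_nozero {n m d : ℕ} (hm : n + 2 ≤ m) {b : Fin m × (Fin d → Fin (n + 1)) → Ω}
    (hb : AlgebraicIndependent K b) {x : Fin (n + 1) → Ω} (hx : x ≠ 0)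
    (h : ∀ k, ∑ β : Fin d → Fin (n + 1), b (k, β) * ∏ t, x (β t) = 0) : False := by
  classical
  let M : (Fin d → Fin (n + 1)) → MvPolynomial (Fin (n + 1)) K := fun β => ∏ t, X (β t)
  have hM : ∀ β, aeval x (M β) = ∏ t, x (β t) := fun β => by simp [M]
  let Ψ : (Fin m → Ω) →ₗ[Ω] (Fin (n + 1) → Ω) :=
    { toFun := fun c j => ∑ k, c k * ∑ β, b (k, β) * aeval x (pderiv j (M β))
      map_add' := by
        intro c c'
        funext j
        simp [add_mul, Finset.sum_add_distrib]
      map_smul' := by
        intro c c'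
        funext j
        simp [Finset.mul_sum, mul_assoc] }
  have hlt : Module.finrank Ω (Fin (n + 1) → Ω) < Module.finrank Ω (Fin m → Ω) := by
    rw [Module.finrank_fintype_fun_eq_card, Module.finrank_fintype_fun_eq_card]
    simp only [Fintype.card_fin]
    omega
  have hker := LinearMap.ker_ne_bot_of_finrank_lt (f := Ψ) hlt
  obtain ⟨c, hc, hc0⟩ := (Submodule.ne_bot_iff _).1 hker
  rw [LinearMap.mem_ker] at hc
  have hA : ∀ j, ∑ k, c k * ∑ β, b (k, β) * aeval x (pderiv j (M β)) = 0 := fun j => congrFun hc j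
  obtain ⟨j0, hj0⟩ := Function.ne_iff.1 hx
  apply hc0
  funext k0
  obtain ⟨D, hD⟩ := Pool.Agent.H135R2.VS.exists_der hb
    (fun p => if p = (k0, fun _ => j0) then 1 else 0)
  have e1 : ∀ k, D (∑ β, b (k, β) * aeval x (M β)) = 0 := fun k => by
    rw [Finset.sum_congr rfl fun β _ => by rw [hM β], h k, map_zero]
  have e2 : ∀ k, D (∑ β, b (k, β) * aeval x (M β)) =
      ∑ j, (∑ β, b (k, β) * aeval x (pderiv j (M β))) * D (x j) +
        if k = k0 then ∏ _t : Fin d, x j0 else 0 := by
    intro k
    have := der_mem (0 : MvPolynomial (Fin (n + 1)) K) M (a := fun β => b (k, β)) D x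
    simp only [map_zero, zero_add] at this
    rw [this]
    congr 1
    simp only [hD, Prod.mk.injEq]
    by_cases hk : k = k0
    · simp only [hk, true_and, ite_mul, one_mul, zero_mul, Finset.sum_ite_eq', Finset.mem_univ,
        if_true, hM]
    · simp [hk]
  have e3 : ∑ k, c k * (∑ j, (∑ β, b (k, β) * aeval x (pderiv j (M β))) * D (x j) +
        if k = k0 then ∏ _t : Fin d, x j0 else 0) = 0 :=
    Finset.sum_eq_zero fun k _ => by rw [← e2, e1, mul_zero]
  simp only [mul_add, Finset.sum_add_distrib] at e3
  have e4 : ∑ k, c k * ∑ j, (∑ β, b (k, β) * aeval x (pderiv j (M β))) * D (x j) = 0 := by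
    have : ∑ k, c k * ∑ j, (∑ β, b (k, β) * aeval x (pderiv j (M β))) * D (x j) =
        ∑ j, (∑ k, c k * ∑ β, b (k, β) * aeval x (pderiv j (M β))) * D (x j) := by
      simp only [Finset.sum_mul, Finset.mul_sum]
      rw [Finset.sum_comm]
      refine Finset.sum_congr rfl fun j _ => Finset.sum_congr rfl fun k _ =>
        Finset.sum_congr rfl fun β _ => ?_
      ring
    rw [this]
    exact Finset.sum_eq_zero fun j _ => by rw [hA, zero_mul]
  rw [e4, zero_add] at e3
  simp only [mul_ite, mul_zero, Finset.sum_ite_eq', Finset.mem_univ, if_true] at e3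
  refine (mul_eq_zero.1 e3).resolve_right ?_
  exact Finset.prod_ne_zero_iff.2 fun _ _ => hj0

end gen

end Pool.Agent.U207.MZ
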