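import Pool.Agent.U207.MZ.Chart

/-!
Project MZ (helper207), part I: local Zariski closures of the rational points.
-/

set_option autoImplicit false

namespace Pool.Agent.U207.MZ

open MvPolynomial

/-- the polynomials which vanish at the rational zeros of `F` near `x ∈ L^ι`: the ideal of the local
Zariski closure at `x` of the rational points of the affine variety `{F = 0}` -/
def locId {ι : Type} {L : Type} [TopologicalSpace L] [Semiring L] (σ : ℚ →+* L)
    (F : Set (MvPolynomial ι ℚ)) (x : ι → L) : Set (MvPolynomial ι ℚ) :=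
  {f | ∃ U ∈ nhds x, ∀ y : ι → ℚ, (∀ g ∈ F, eval y g = 0) → (fun i => σ (y i)) ∈ U → eval y f = 0}

/-- The local Zariski closures of the rational points at the `L`-points of the affine variety
`{F = 0}` take only finitely many values. -/
def FinLoc {ι : Type} {L : Type} [TopologicalSpace L] [CommSemiring L] (σ : ℚ →+* L)
    (F : Set (MvPolynomial ι ℚ)) : Prop :=
  {I | ∃ x : ι → L, (∀ g ∈ F, eval₂ σ x g = 0) ∧ I = locId σ F x}.Finite

/-- the ideals of the local Zariski closures of the rational points of a projective variety, word for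
word as in the frozen statement `S19033` -/
def locProj {L : Type} [TopologicalSpace L] [CommSemiring L] (σ : ℚ →+* L) {n : ℕ}
    (S : Set (MvPolynomial (Fin (n + 1)) ℚ)) : Set (Set (MvPolynomial (Fin (n + 1)) ℚ)) :=
  {J : Set (MvPolynomial (Fin (n + 1)) ℚ) |
      ∃ x : Fin (n + 1) → L, x ≠ 0 ∧ (∀ g ∈ S, MvPolynomial.eval₂ σ x g = 0) ∧
        J = {f : MvPolynomial (Fin (n + 1)) ℚ |
          ∃ U ∈ nhds x, ∀ y : Fin (n + 1) → ℚ, y ≠ 0 →
            (∀ g ∈ S, MvPolynomial.eval y g = 0) →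
            (∃ c : L, c ≠ 0 ∧ (fun i => c * σ (y i)) ∈ U) →
            ∀ t : ℚ, MvPolynomial.eval (t • y) f = 0}}

/-- Q1 of MP_f9f755_nt for `K = ℚ` and the completion `L` -/
def Q1Proj {L : Type} [TopologicalSpace L] [CommSemiring L] (σ : ℚ →+* L) : Prop :=
  ∀ (n : ℕ) (S : Set (MvPolynomial (Fin (n + 1)) ℚ)), (∀ f ∈ S, ∃ d : ℕ, f.IsHomogeneous d) →
    (Ideal.span S).radical.IsPrime → (locProj σ S).Finite

/-- the affine chart of `Y = {G = 0} ⊆ P^n × E^m` in which the coordinate `x_i` and the coordinates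
number `c k` of the triples `(u_k, v_k, w_k)` are `1` -/
def chartEqs {n m : ℕ} (G : MvPolynomial (Co n m) ℚ) (i : Fin (n + 1)) (c : Fin m → Fin 3) :
    Set (MvPolynomial (Co n m) ℚ) :=
  Set.range (eqs G) ∪ ({X (Sum.inl i) - 1} ∪ Set.range fun k => X (Sum.inr (k, c k)) - 1)

section loc

variable {L : Type} [NontriviallyNormedField L] {σ : ℚ →+* L} {ι : Type}

theorem zeros_span (F : Set (MvPolynomial ι ℚ)) (y : ι → ℚ) :
    (∀ g ∈ Ideal.span F, eval y g = 0) ↔ ∀ g ∈ F, eval y g = 0 := by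
  constructor
  · exact fun h g hg => h g (Ideal.subset_span hg)
  · intro h g hg
    have : Ideal.span F ≤ RingHom.ker (eval y) := Ideal.span_le.2 h
    exact this hg

theorem zeros_span' (F : Set (MvPolynomial ι ℚ)) (x : ι → L) :
    (∀ g ∈ Ideal.span F, eval₂ σ x g = 0) ↔ ∀ g ∈ F, eval₂ σ x g = 0 := by
  constructor
  · exact fun h g hg => h g (Ideal.subset_span hg)
  · intro h g hg
    have : Ideal.span F ≤ RingHom.ker (eval₂Hom σ x) := Ideal.span_le.2 h
    exact this hg

theorem locId_congr {F F' : Set (MvPolynomial ι ℚ)} (h : ∀ y : ι → ℚ, (∀ g ∈ F, eval y g = 0) ↔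
    ∀ g ∈ F', eval y g = 0) (x : ι → L) : locId σ F x = locId σ F' x := by
  unfold locId
  simp only [h]

/-- values at rational points -/
theorem eval₂_rat (y : ι → ℚ) (f : MvPolynomial ι ℚ) :
    eval₂ σ (fun i => σ (y i)) f = σ (eval y f) := by
  have h := eval₂_comp_left σ (RingHom.id ℚ) y f
  rw [RingHom.comp_id] at h
  exact h.symm

theorem cont_eval₂ (f : MvPolynomial ι ℚ) : Continuous fun x : ι → L => eval₂ σ x f := by
  have : (fun x : ι → L => eval₂ σ x f) = fun x => eval x (map σ f) := by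
    funext x
    rw [eval_map]
  rw [this]
  exact MvPolynomial.continuous_eval _

/-- points which are no limits of rational points -/
theorem locId_univ {F : Set (MvPolynomial ι ℚ)} {x : ι → L}
    (h : x ∉ closure {z : ι → L | ∃ y : ι → ℚ, (∀ g ∈ F, eval y g = 0) ∧ z = fun i => σ (y i)}) :
    locId σ F x = Set.univ := by
  rw [Set.eq_univ_iff_forall]
  intro f
  rw [locId, Set.mem_ofPred_eq]
  refine ⟨_, isClosed_closure.isOpen_compl.mem_nhds h, fun y hy hyU => ?_⟩
  exact absurd (subset_closure (s := {z : ι → L | ∃ y : ι → ℚ, (∀ g ∈ F, eval y g = 0) ∧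
    z = fun i => σ (y i)}) ⟨y, hy, rfl⟩) hyU

/-- the limits of rational points are points -/
theorem mem_of_closure {F : Set (MvPolynomial ι ℚ)} {x : ι → L}
    (h : x ∈ closure {z : ι → L | ∃ y : ι → ℚ, (∀ g ∈ F, eval y g = 0) ∧ z = fun i => σ (y i)}) :
    ∀ g ∈ F, eval₂ σ x g = 0 := by
  intro g hg
  have hcl : IsClosed {z : ι → L | eval₂ σ z g = 0} :=
    isClosed_eq (cont_eval₂ g) continuous_const
  have hsub : {z : ι → L | ∃ y : ι → ℚ, (∀ g ∈ F, eval y g = 0) ∧ z = fun i => σ (y i)} ⊆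
      {z : ι → L | eval₂ σ z g = 0} := by
    rintro _ ⟨y, hy, rfl⟩
    change eval₂ σ (fun i => σ (y i)) g = 0
    rw [eval₂_rat, hy g hg, map_zero]
  exact (hcl.closure_subset_iff.2 hsub) h

/-- **From charts of `Y` to affine varieties.** -/
theorem finLoc_of_chart {n N m : ℕ} {F : Set (MvPolynomial (Fin n) ℚ)} {i0 : Fin (N + 1)}
    {φ : Fin (N + 1) → MvPolynomial (Fin n) ℚ} {π : Fin n → Fin (N + 1)}
    {G : MvPolynomial (Co N m) ℚ} (hφ : ∀ i, φ (π i) = X i)
    (h : ∀ q : Co N m → ℚ, (q (Sum.inl i0) = 1 ∧ (∀ k, q (Sum.inr (k, 1)) = 1) ∧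
        ∀ i, aeval q (eqs G i) = 0) ↔
          ∃ x : Fin n → ℚ, (∀ f ∈ F, eval x f = 0) ∧ q = fun j => eval x (lift φ j))
    (hG : FinLoc σ (chartEqs G i0 fun _ => 1)) : FinLoc σ F := by
  classical
  have hch : ∀ q : Co N m → ℚ, (∀ f ∈ chartEqs G i0 (fun _ => 1), eval q f = 0) ↔
      ∃ x : Fin n → ℚ, (∀ f ∈ F, eval x f = 0) ∧ q = fun j => eval x (lift φ j) := by
    intro q
    rw [← h]
    constructor
    · intro h1
      refine ⟨?_, fun k => ?_, fun i => ?_⟩
      · have := h1 _ (Or.inr (Or.inl rfl))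
        rw [map_sub, eval_X, map_one] at this
        exact sub_eq_zero.1 this
      · have := h1 _ (Or.inr (Or.inr ⟨k, rfl⟩))
        rw [map_sub, eval_X, map_one] at this
        exact sub_eq_zero.1 this
      · exact h1 _ (Or.inl ⟨i, rfl⟩)
    · rintro ⟨h1, h2, h3⟩ f (⟨i, rfl⟩ | rfl | ⟨k, rfl⟩)
      · exact h3 i
      · rw [map_sub, eval_X, map_one, h1, sub_self]
      · rw [map_sub, eval_X, map_one, h2, sub_self]
  set Φ : (Fin n → L) → (Co N m → L) := fun x j => eval₂ σ x (lift φ j) with hΦ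
  have hΦc : Continuous Φ := continuous_pi fun j => cont_eval₂ _
  have hρc : Continuous fun (y : Co N m → L) (i : Fin n) => y (Sum.inl (π i)) := by fun_prop
  have hρΦ : ∀ x, (fun i => Φ x (Sum.inl (π i))) = x := by
    intro x
    funext i
    simp [hΦ, lift, hφ]
  have hΦr : ∀ y : Fin n → ℚ, Φ (fun i => σ (y i)) = fun j => σ (eval y (lift φ j)) := by
    intro y
    funext j
    exact eval₂_rat _ _
  -- the local ideals
  have key : ∀ x : Fin n → L, locId σ F x =
      {f | rename (fun i => Sum.inl (π i)) f ∈ locId σ (chartEqs G i0 fun _ => 1) (Φ x)} := by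
    intro x
    ext f
    constructor
    · rintro ⟨U, hU, hf⟩
      refine ⟨_, hρc.continuousAt.preimage_mem_nhds (by
        rw [hρΦ]
        exact hU), fun q hq hqU => ?_⟩
      obtain ⟨y, hy, rfl⟩ := (hch q).1 hq
      rw [eval_rename]
      have h1 : (fun j => eval y (lift φ j)) ∘ (fun i => (Sum.inl (π i) : Co N m)) = y := by
        funext i
        simp [lift, hφ]
      rw [h1]
      refine hf y hy ?_
      change (fun i => σ (eval y (lift φ (Sum.inl (π i) : Co N m)))) ∈ U at hqU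
      convert! hqU using 1
      funext i
      simp [lift, hφ]
    · rintro ⟨U, hU, hf⟩
      refine ⟨_, hΦc.continuousAt.preimage_mem_nhds hU, fun y hy hyU => ?_⟩
      have h1 := hf (fun j => eval y (lift φ j)) ((hch _).2 ⟨y, hy, rfl⟩) (by
        rw [← hΦr]
        exact hyU)
      rw [eval_rename] at h1
      have h2 : (fun j => eval y (lift φ j)) ∘ (fun i => (Sum.inl (π i) : Co N m)) = y := by
        funext i
        simp [lift, hφ]
      rwa [h2] at h1
  refine ((hG.image fun I => {f | rename (fun i => Sum.inl (π i)) f ∈ I}).union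
    (Set.finite_singleton Set.univ)).subset ?_
  rintro _ ⟨x, -, rfl⟩
  by_cases hx : x ∈ closure {z : Fin n → L | ∃ y : Fin n → ℚ, (∀ g ∈ F, eval y g = 0) ∧
      z = fun i => σ (y i)}
  · refine Or.inl ⟨_, ⟨Φ x, ?_, rfl⟩, (key x).symm⟩
    apply mem_of_closure
    have h1 := image_closure_subset_closure_image hΦc ⟨x, hx, rfl⟩
    refine closure_mono ?_ h1
    rintro _ ⟨_, ⟨y, hy, rfl⟩, rfl⟩
    exact ⟨fun j => eval y (lift φ j), (hch _).2 ⟨y, hy, rfl⟩, hΦr y⟩
  · exact Or.inr (locId_univ hx)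

/-- finite sets suffice -/
theorem finLoc_of_finset {n : ℕ} (h : ∀ F : Finset (MvPolynomial (Fin n) ℚ),
    FinLoc σ (F : Set (MvPolynomial (Fin n) ℚ))) (F : Set (MvPolynomial (Fin n) ℚ)) :
    FinLoc σ F := by
  obtain ⟨F', hF'⟩ := (isNoetherianRing_iff_ideal_fg _).1 inferInstance (Ideal.span F)
  have h1 : ∀ y : Fin n → ℚ, (∀ g ∈ F, eval y g = 0) ↔
      ∀ g ∈ (F' : Set (MvPolynomial (Fin n) ℚ)), eval y g = 0 := fun y => by
    rw [← zeros_span F, ← zeros_span (F' : Set (MvPolynomial (Fin n) ℚ))]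
    have : Ideal.span (F' : Set (MvPolynomial (Fin n) ℚ)) = Ideal.span F := hF'
    rw [this]
  have h2 : ∀ x : Fin n → L, (∀ g ∈ F, eval₂ σ x g = 0) ↔
      ∀ g ∈ (F' : Set (MvPolynomial (Fin n) ℚ)), eval₂ σ x g = 0 := fun x => by
    rw [← zeros_span' F, ← zeros_span' (F' : Set (MvPolynomial (Fin n) ℚ))]
    have : Ideal.span (F' : Set (MvPolynomial (Fin n) ℚ)) = Ideal.span F := hF'
    rw [this]
  have h3 := h F'
  unfold FinLoc at h3 ⊢
  simp only [h2, locId_congr h1]
  exact h3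

end loc

end Pool.Agent.U207.MZ
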