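import Pool.Agent.U207.MZ.Chart

/-!
Project MZ (helper207), part H: semi-algebraicity of the closure of the rational points.
-/

set_option autoImplicit false

namespace Pool.Agent.U207.MZ

open MvPolynomial

/-- semi-algebraic subsets of `ℝ^ι` defined over `ℚ`: finite unions of sets
`{p = 0, g_1 > 0, …, g_r > 0}` -/
def SA {ι : Type} (S : Set (ι → ℝ)) : Prop :=
  ∃ (m : ℕ) (P : Fin m → MvPolynomial ι ℚ) (G : Fin m → Finset (MvPolynomial ι ℚ)),
    S = {x | ∃ j, (aeval x (P j) : ℝ) = 0 ∧ ∀ g ∈ G j, (0 : ℝ) < aeval x g}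

/-- the closure in `ℝ^ι` of the common rational zeros of the polynomials in `F` -/
def ratCl {ι : Type} (F : Set (MvPolynomial ι ℚ)) : Set (ι → ℝ) :=
  closure {x | ∃ q : ι → ℚ, (∀ f ∈ F, eval q f = 0) ∧ ∀ i, x i = (q i : ℝ)}

/-- Q1 of MP_42de19_nt, word for word the frozen statement `S16707`, for all affine varieties -/
def Q1All : Prop := ∀ (n : ℕ) (F : Finset (MvPolynomial (Fin n) ℚ)),
  SA (ratCl (F : Set (MvPolynomial (Fin n) ℚ)))

/-- the affine chart of `Y = {G = 0} ⊆ P^n × E^m` in which the coordinate `x_i` and the coordinates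
number `c k` of the triples `(u_k, v_k, w_k)` are `1` -/
def chart {n m : ℕ} (G : MvPolynomial (Co n m) ℚ) (i : Fin (n + 1)) (c : Fin m → Fin 3) :
    Set (MvPolynomial (Co n m) ℚ) :=
  Set.range (eqs G) ∪ ({X (Sum.inl i) - 1} ∪ Set.range fun k => X (Sum.inr (k, c k)) - 1)

/-- Q1 of MP_42de19_nt for `Y = {G = 0} ⊆ P^n × E^m`: in all charts, the closure of the set of the
rational points is semi-algebraic over `ℚ`. -/
def Q1Y {n m : ℕ} (G : MvPolynomial (Co n m) ℚ) : Prop := ∀ i c, SA (ratCl (chart G i c))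

section sa

variable {ι κ : Type}

theorem SA.comap {S : Set (ι → ℝ)} (h : SA S) (Φ : ι → MvPolynomial κ ℚ) :
    SA {x : κ → ℝ | (fun i => aeval x (Φ i)) ∈ S} := by
  classical
  obtain ⟨m, P, G, rfl⟩ := h
  refine ⟨m, fun j => bind₁ Φ (P j), fun j => (G j).image (bind₁ Φ), ?_⟩
  ext x
  simp only [Set.mem_ofPred_eq, aeval_bind₁, Finset.mem_image, forall_exists_index, and_imp,
    forall_apply_eq_imp_iff₂]

/-- change of the index type -/
theorem ratCl_comap (e : ι ≃ κ) (F : Set (MvPolynomial ι ℚ)) :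
    ratCl F = {x | (fun j => aeval x (X (e.symm j) : MvPolynomial ι ℚ)) ∈
      ratCl (rename e '' F)} := by
  have h1 : {y : κ → ℝ | ∃ q : κ → ℚ, (∀ f ∈ rename e '' F, eval q f = 0) ∧ ∀ i, y i = (q i : ℝ)} =
      (fun x : ι → ℝ => x ∘ e.symm) '' {x | ∃ q : ι → ℚ, (∀ f ∈ F, eval q f = 0) ∧
        ∀ i, x i = (q i : ℝ)} := by
    ext y
    constructor
    · rintro ⟨q, hq, hy⟩
      refine ⟨y ∘ e, ⟨q ∘ e, fun f hf => ?_, fun i => hy (e i)⟩, ?_⟩
      · have := hq _ ⟨f, hf, rfl⟩
        rwa [eval_rename] at this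
      · funext j
        simp
    · rintro ⟨x, ⟨q, hq, hx⟩, rfl⟩
      refine ⟨q ∘ e.symm, ?_, fun i => hx _⟩
      rintro _ ⟨f, hf, rfl⟩
      rw [eval_rename]
      have : (q ∘ e.symm) ∘ e = q := by
        funext i
        simp
      rw [this]
      exact hq f hf
  have h2 : Continuous fun x : ι → ℝ => x ∘ e.symm := by fun_prop
  have h3 : Continuous fun y : κ → ℝ => y ∘ e := by fun_prop
  unfold ratCl
  rw [h1]
  ext x
  simp only [aeval_X, Set.mem_ofPred_eq]
  constructor
  · intro hx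
    exact image_closure_subset_closure_image h2 ⟨x, hx, rfl⟩
  · intro hx
    have h4 := image_closure_subset_closure_image h3 ⟨_, hx, rfl⟩
    rw [← Set.image_comp] at h4
    have h5 : ((fun y : κ → ℝ => y ∘ e) ∘ fun x : ι → ℝ => x ∘ e.symm) = id := by
      funext x i
      simp
    rw [h5, Set.image_id] at h4
    convert! h4 using 1
    funext i
    simp

end sa

/-- Q1 for affine varieties implies Q1 for the hypersurfaces. -/
theorem q1Y_of_q1 (h : Q1All) {n m : ℕ} (G : MvPolynomial (Co n m) ℚ) : Q1Y G := by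
  classical
  intro i c
  let e : Co n m ≃ Fin (Fintype.card (Co n m)) := Fintype.equivFin _
  have hfin : (rename e '' chart G i c).Finite := by
    refine Set.Finite.image _ ?_
    exact (Set.finite_range _).union ((Set.finite_singleton _).union (Set.finite_range _))
  rw [ratCl_comap e]
  refine SA.comap ?_ _
  have := h _ hfin.toFinset
  rwa [Set.Finite.coe_toFinset] at this

/-- The closures of the rational points of an affine variety and of a chart. -/
theorem ratCl_chart {n N m : ℕ} {F : Set (MvPolynomial (Fin n) ℚ)} {i0 : Fin (N + 1)}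
    {φ : Fin (N + 1) → MvPolynomial (Fin n) ℚ} {π : Fin n → Fin (N + 1)}
    {G : MvPolynomial (Co N m) ℚ} (hφ : ∀ i, φ (π i) = X i)
    (h : ∀ q : Co N m → ℚ, (q (Sum.inl i0) = 1 ∧ (∀ k, q (Sum.inr (k, 1)) = 1) ∧
        ∀ i, aeval q (eqs G i) = 0) ↔
          ∃ x : Fin n → ℚ, (∀ f ∈ F, eval x f = 0) ∧ q = fun j => eval x (lift φ j)) :
    ratCl F = {x | (fun j => aeval x (lift (m := m) φ j)) ∈
      ratCl (chart G i0 fun _ => 1)} := by
  classical
  set Φ : (Fin n → ℝ) → (Co N m → ℝ) := fun x j => aeval x (lift φ j) with hΦ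
  have hcast : ∀ (x : Fin n → ℚ) (p : MvPolynomial (Fin n) ℚ),
      aeval (fun i => (x i : ℝ)) p = ((eval x p : ℚ) : ℝ) := by
    intro x p
    have h0 : eval x p = aeval x p := by
      rw [← MvPolynomial.coe_aeval_eq_eval]
      rfl
    rw [h0]
    exact aeval_algebraMap_apply ℝ x p
  have hch : ∀ q : Co N m → ℚ, (∀ f ∈ chart G i0 (fun _ => 1), eval q f = 0) ↔
      (q (Sum.inl i0) = 1 ∧ (∀ k, q (Sum.inr (k, 1)) = 1) ∧ ∀ i, aeval q (eqs G i) = 0) := by
    intro q
    constructor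
    · intro h1
      refine ⟨?_, fun k => ?_, fun i => ?_⟩
      · have := h1 _ (Or.inr (Or.inl rfl))
        rw [map_sub, eval_X, map_one] at this
        exact sub_eq_zero.1 this
      · have := h1 _ (Or.inr (Or.inr ⟨k, rfl⟩))
        rw [map_sub, eval_X, map_one] at this
        exact sub_eq_zero.1 this
      · exact h1 _ (Or.inl ⟨i, rfl⟩)
    · rintro ⟨h1, h2, h3⟩ f (⟨i, rfl⟩ | rfl | ⟨k, rfl⟩)
      · exact h3 i
      · rw [map_sub, eval_X, map_one, h1, sub_self]
      · rw [map_sub, eval_X, map_one, h2, sub_self]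
  have h1 : {y : Co N m → ℝ | ∃ q : Co N m → ℚ, (∀ f ∈ chart G i0 (fun _ => 1), eval q f = 0) ∧
      ∀ i, y i = (q i : ℝ)} =
      Φ '' {x | ∃ q : Fin n → ℚ, (∀ f ∈ F, eval q f = 0) ∧ ∀ i, x i = (q i : ℝ)} := by
    ext y
    constructor
    · rintro ⟨q, hq, hy⟩
      obtain ⟨x, hx, rfl⟩ := (h q).1 ((hch q).1 hq)
      refine ⟨fun i => (x i : ℝ), ⟨x, hx, fun i => rfl⟩, ?_⟩
      funext j
      rw [hy j]
      exact hcast _ _
    · rintro ⟨x, ⟨q, hq, hx⟩, rfl⟩
      obtain rfl : x = fun i => (q i : ℝ) := funext hx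
      exact ⟨fun j => eval q (lift φ j), (hch _).2 ((h _).2 ⟨q, hq, rfl⟩), fun j => hcast _ _⟩
  have h2 : Continuous Φ := by
    refine continuous_pi fun j => ?_
    have : (fun x : Fin n → ℝ => aeval x (lift (m := m) φ j)) =
        fun x => eval x (map (algebraMap ℚ ℝ) (lift (m := m) φ j)) := by
      funext x
      rw [eval_map]
      rfl
    rw [hΦ]
    change Continuous fun x : Fin n → ℝ => aeval x (lift (m := m) φ j)
    rw [this]
    exact MvPolynomial.continuous_eval _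
  have h3 : Continuous fun (y : Co N m → ℝ) (i : Fin n) => y (Sum.inl (π i)) := by fun_prop
  have h5 : ((fun (y : Co N m → ℝ) (i : Fin n) => y (Sum.inl (π i))) ∘ Φ) = id := by
    funext x i
    simp [hΦ, lift, hφ]
  unfold ratCl
  rw [h1]
  ext x
  rw [Set.mem_ofPred_eq]
  constructor
  · intro hx
    exact image_closure_subset_closure_image h2 ⟨x, hx, rfl⟩
  · intro hx
    have h4 := image_closure_subset_closure_image h3 ⟨_, hx, rfl⟩
    rw [← Set.image_comp, h5, Set.image_id] at h4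
    have h6 : (fun i => Φ x (Sum.inl (π i))) = x := congrFun h5 x
    convert! h4 using 1
    exact h6.symm

/-- **Reduction to smooth hypersurfaces of `P^n × E^{n+2}`.** -/
theorem q1_iff (δ : ℕ → ℕ) (hδ : ∀ N, Even (δ N) ∧ 4 ≤ δ N) :
    Q1All ↔ ∀ (n : ℕ) (G : MvPolynomial (Co n (n + 2)) ℚ), IsMulti (δ n) 2 G → SmoothHyp G →
      OneFibre G → Q1Y G := by
  constructor
  · intro h n G _ _ _
    exact q1Y_of_q1 h G
  · intro h n F
    obtain ⟨N, i0, φ, π, G, hG1, hG2, -, hφ, hG3, hG⟩ := exists_chart δ hδ F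
    rw [ratCl_chart hφ hG]
    exact (h N G hG1 hG2 hG3 i0 fun _ => 1).comap _

end Pool.Agent.U207.MZ
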