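import Pool.Agent.U207.MZ.Loc

/-!
Project MZ (helper207), part J: local Zariski closures of the rational points of projective and of affine
varieties.
-/

set_option autoImplicit false

namespace Pool.Agent.U207.MZ

open MvPolynomial

section scale

theorem eval₂_scale {ι : Type} [Fintype ι] {R A : Type} [CommSemiring R] [CommSemiring A] (σ : R →+* A)
    {e : ℕ} {F : MvPolynomial ι R} (hF : F.IsHomogeneous e) (s : A) (x : ι → A) :
    eval₂ σ (fun i => s * x i) F = s ^ e * eval₂ σ x F := by
  rw [eval₂_eq', eval₂_eq', Finset.mul_sum]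
  apply Finset.sum_congr rfl
  intro α hα
  have h1 : ∑ j, α j = e := by
    have h2 := hF (mem_support_iff.1 hα)
    rw [Finsupp.weight_apply, Finsupp.sum_fintype _ _ (fun _ => by simp)] at h2
    simpa using h2
  simp only [mul_pow, Finset.prod_mul_distrib]
  rw [Finset.prod_pow_eq_pow_sum, h1]
  ring

theorem eval_scale {ι : Type} [Fintype ι] {e : ℕ} {F : MvPolynomial ι ℚ} (hF : F.IsHomogeneous e)
    (s : ℚ) (x : ι → ℚ) : eval (s • x) F = s ^ e * eval x F :=
  eval₂_scale (RingHom.id ℚ) hF s x

/-- A polynomial vanishes on the line of `y` if and only if its homogeneous components do. -/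
theorem eval_line {n : ℕ} (f : MvPolynomial (Fin n) ℚ) (y : Fin n → ℚ) :
    (∀ t : ℚ, eval (t • y) f = 0) ↔ ∀ d, eval y (homogeneousComponent d f) = 0 := by
  have h1 : ∀ t : ℚ, eval (t • y) f = ∑ d ∈ Finset.range (f.totalDegree + 1),
      t ^ d * eval y (homogeneousComponent d f) := by
    intro t
    conv_lhs => rw [← sum_homogeneousComponent f, map_sum]
    refine Finset.sum_congr rfl fun d _ => ?_
    exact eval_scale (homogeneousComponent_isHomogeneous d f) t y
  constructor
  · intro h d
    by_cases hd : f.totalDegree < d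
    · rw [homogeneousComponent_eq_zero _ _ hd, map_zero]
    let p : Polynomial ℚ := ∑ d ∈ Finset.range (f.totalDegree + 1),
      Polynomial.monomial d (eval y (homogeneousComponent d f))
    have hp : p = 0 := by
      apply Polynomial.funext
      intro t
      rw [Polynomial.eval_zero, ← h t, h1, Polynomial.eval_finsetSum]
      refine Finset.sum_congr rfl fun d _ => ?_
      rw [Polynomial.eval_monomial, mul_comm]
    have h2 := congrArg (fun q => Polynomial.coeff q d) hp
    simp only [p, Polynomial.finsetSum_coeff, Polynomial.coeff_monomial, Polynomial.coeff_zero,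
      Finset.sum_ite_eq', Finset.mem_range] at h2
    rwa [if_pos (by omega)] at h2
  · intro h t
    rw [h1]
    exact Finset.sum_eq_zero fun d _ => by rw [h, mul_zero]

end scale

section down

variable {L : Type} [NontriviallyNormedField L] {σ : ℚ →+* L}

/-- **From affine to projective varieties.** -/
theorem q1Proj_of_aff (h : ∀ (n : ℕ) (F : Set (MvPolynomial (Fin n) ℚ)), FinLoc σ F) :
    Q1Proj σ := by
  classical
  intro n S hS _
  let T : Set (MvPolynomial (Fin (n + 1)) ℚ) → Set (MvPolynomial (Fin (n + 1)) ℚ) := fun I =>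
    {f | ∀ d, homogeneousComponent d f ∈ I}
  let Fi : Fin (n + 1) → Set (MvPolynomial (Fin (n + 1)) ℚ) := fun i => S ∪ {X i - 1}
  refine (Set.finite_iUnion fun i => ((h (n + 1) (Fi i)).image T)).subset ?_
  rintro _ ⟨x, hx, hxS, rfl⟩
  obtain ⟨i, hi⟩ := Function.ne_iff.1 hx
  have hi' : x i ≠ 0 := hi
  set x' : Fin (n + 1) → L := fun j => (x i)⁻¹ * x j with hx'
  have hxx : (fun j => x i * x' j) = x := by
    funext j
    rw [hx', mul_inv_cancel_left₀ hi']
  rw [Set.mem_iUnion]
  refine ⟨i, _, ⟨x', ?_, rfl⟩, ?_⟩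
  · rintro g (hg | rfl)
    · obtain ⟨e, he⟩ := hS g hg
      rw [eval₂_scale σ he, hxS g hg, mul_zero]
    · rw [eval₂_sub, eval₂_X, eval₂_one]
      change (x i)⁻¹ * x i - 1 = 0
      rw [inv_mul_cancel₀ hi', sub_self]
  · ext f
    simp only [T, Set.mem_ofPred_eq]
    constructor
    · intro hf
      -- one neighbourhood for all degrees
      have hf' : ∀ d, ∃ U ∈ nhds x', ∀ y : Fin (n + 1) → ℚ, (∀ g ∈ Fi i, eval y g = 0) →
          (fun i => σ (y i)) ∈ U → eval y (homogeneousComponent d f) = 0 := hf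
      choose U hU hfU using hf'
      have hV : (⋂ d ∈ Finset.range (f.totalDegree + 1), U d) ∈ nhds x' :=
        (Filter.biInter_finset_mem _).2 fun d _ => hU d
      have hc : ContinuousAt (fun (z : Fin (n + 1) → L) j => (z i)⁻¹ * z j) x := by
        refine continuousAt_pi.2 fun j => ?_
        exact ((continuous_apply i).continuousAt.inv₀ hi').mul (continuous_apply j).continuousAt
      have h1 := hc.preimage_mem_nhds (t := ⋂ d ∈ Finset.range (f.totalDegree + 1), U d) hV
      have h2 : {z : Fin (n + 1) → L | z i ≠ 0} ∈ nhds x :=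
        (isOpen_ne_fun (continuous_apply i) continuous_const).mem_nhds hi'
      refine ⟨_, Filter.inter_mem h1 h2, ?_⟩
      rintro y - hyS ⟨c, hc0, hcU, hci⟩
      have hyi : y i ≠ 0 := by
        intro h0
        apply hci
        change c * σ (y i) = 0
        rw [h0, map_zero, mul_zero]
      rw [eval_line]
      intro d
      by_cases hd : f.totalDegree < d
      · rw [homogeneousComponent_eq_zero _ _ hd, map_zero]
      have hd' : d ∈ Finset.range (f.totalDegree + 1) := Finset.mem_range.2 (by omega)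
      have h3 := hfU d ((y i)⁻¹ • y) (by
        rintro g (hg | rfl)
        · obtain ⟨e, he⟩ := hS g hg
          rw [eval_scale he, hyS g hg, mul_zero]
        · rw [map_sub, eval_X, map_one, Pi.smul_apply, smul_eq_mul, inv_mul_cancel₀ hyi,
            sub_self]) (by
        have h4 := Set.mem_iInter₂.1 hcU d hd'
        convert! h4 using 1
        funext j
        have hσ : σ (y i) ≠ 0 := (map_ne_zero σ).2 hyi
        change σ ((y i)⁻¹ * y j) = (c * σ (y i))⁻¹ * (c * σ (y j))
        rw [map_mul, map_inv₀, mul_inv]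
        field_simp)
      rw [eval_scale (homogeneousComponent_isHomogeneous d f)] at h3
      exact (mul_eq_zero.1 h3).resolve_left (pow_ne_zero _ (inv_ne_zero hyi))
    · rintro ⟨U, hU, hf⟩ d
      have hc : Continuous fun (z : Fin (n + 1) → L) j => x i * z j := by fun_prop
      refine ⟨_, hc.continuousAt.preimage_mem_nhds (x := x') (by
        rw [hxx]
        exact hU), fun y hy hyU => ?_⟩
      have hy1 : y i = 1 := by
        have := hy _ (Or.inr rfl)
        rw [map_sub, eval_X, map_one] at this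
        exact sub_eq_zero.1 this
      exact (eval_line f y).1 (hf y (fun h0 => by
        rw [h0] at hy1
        exact zero_ne_one hy1) (fun g hg => hy g (Or.inl hg)) ⟨x i, hi', hyU⟩) d

end down

section hom

variable {n : ℕ}

/-- the dehomogenization -/
noncomputable def dehom : MvPolynomial (Fin (n + 1)) ℚ →ₐ[ℚ] MvPolynomial (Fin n) ℚ :=
  aeval (Fin.cons 1 X : Fin (n + 1) → MvPolynomial (Fin n) ℚ)

/-- the homogenization -/
noncomputable def homog (f : MvPolynomial (Fin n) ℚ) : MvPolynomial (Fin (n + 1)) ℚ :=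
  ∑ d ∈ Finset.range (f.totalDegree + 1),
    X 0 ^ (f.totalDegree - d) * rename Fin.succ (homogeneousComponent d f)

theorem homog_hom (f : MvPolynomial (Fin n) ℚ) : (homog f).IsHomogeneous f.totalDegree := by
  refine IsHomogeneous.sum _ _ _ fun d hd => ?_
  have h1 := ((isHomogeneous_X ℚ (0 : Fin (n + 1))).pow (f.totalDegree - d)).mul
    ((homogeneousComponent_isHomogeneous d f).rename_isHomogeneous (f := Fin.succ))
  have h2 : 1 * (f.totalDegree - d) + d = f.totalDegree := by
    have := Finset.mem_range.1 hd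
    omega
  rwa [h2] at h1

theorem dehom_homog (f : MvPolynomial (Fin n) ℚ) : dehom (homog f) = f := by
  unfold homog dehom
  rw [map_sum]
  conv_rhs => rw [← sum_homogeneousComponent f]
  refine Finset.sum_congr rfl fun d _ => ?_
  rw [map_mul, map_pow, aeval_X, Fin.cons_zero, one_pow, one_mul, aeval_rename]
  have : (Fin.cons 1 X : Fin (n + 1) → MvPolynomial (Fin n) ℚ) ∘ Fin.succ = X := by
    funext i
    simp
  rw [this]
  exact aeval_X_left_apply _

/-- values of the dehomogenization -/
theorem eval₂_dehom {A : Type} [CommSemiring A] (σ : ℚ →+* A) (x : Fin n → A)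
    (g : MvPolynomial (Fin (n + 1)) ℚ) :
    eval₂ σ x (dehom g) = eval₂ σ (Fin.cons 1 x : Fin (n + 1) → A) g := by
  unfold dehom
  induction g using MvPolynomial.induction_on with
  | C a => simp
  | add p q hp hq => rw [map_add, eval₂_add, eval₂_add, hp, hq]
  | mul_X p i hp =>
    rw [map_mul, eval₂_mul, eval₂_mul, hp, aeval_X, eval₂_X]
    congr 1
    refine Fin.cases ?_ (fun j => ?_) i
    · simp
    · simp

theorem eval_dehom (x : Fin n → ℚ) (g : MvPolynomial (Fin (n + 1)) ℚ) :
    eval x (dehom g) = eval (Fin.cons 1 x : Fin (n + 1) → ℚ) g :=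
  eval₂_dehom (RingHom.id ℚ) x g

/-- the equations of the projective closure -/
def clo (p : Ideal (MvPolynomial (Fin n) ℚ)) : Set (MvPolynomial (Fin (n + 1)) ℚ) :=
  {g | (∃ d, g.IsHomogeneous d) ∧ dehom g ∈ p}

/-- the map whose kernel is the ideal of the projective closure -/
noncomputable def rho (p : Ideal (MvPolynomial (Fin n) ℚ)) :
    MvPolynomial (Fin (n + 1)) ℚ →+* Polynomial (MvPolynomial (Fin n) ℚ ⧸ p) :=
  eval₂Hom ((Polynomial.C : (MvPolynomial (Fin n) ℚ ⧸ p) →+* _).comp
      ((Ideal.Quotient.mk p).comp C))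
    (fun i => Polynomial.X * Polynomial.C (Ideal.Quotient.mk p
      ((Fin.cons 1 X : Fin (n + 1) → MvPolynomial (Fin n) ℚ) i)))

theorem rho_one (p : Ideal (MvPolynomial (Fin n) ℚ)) (g : MvPolynomial (Fin (n + 1)) ℚ) :
    eval₂ ((Polynomial.C : (MvPolynomial (Fin n) ℚ ⧸ p) →+* _).comp
      ((Ideal.Quotient.mk p).comp C)) (fun i => Polynomial.C (Ideal.Quotient.mk p
      ((Fin.cons 1 X : Fin (n + 1) → MvPolynomial (Fin n) ℚ) i))) g =
      Polynomial.C (Ideal.Quotient.mk p (dehom g)) := by
  unfold dehom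
  induction g using MvPolynomial.induction_on with
  | C a =>
    rw [eval₂_C, algHom_C]
    rfl
  | add q r hq hr => rw [eval₂_add, hq, hr, map_add, map_add, map_add]
  | mul_X q i hq => rw [eval₂_mul, eval₂_X, hq, map_mul, map_mul, map_mul, aeval_X]

theorem rho_hom (p : Ideal (MvPolynomial (Fin n) ℚ)) {d : ℕ} {g : MvPolynomial (Fin (n + 1)) ℚ}
    (hg : g.IsHomogeneous d) :
    rho p g = Polynomial.monomial d (Ideal.Quotient.mk p (dehom g)) := by
  have h1 := eval₂_scale ((Polynomial.C : (MvPolynomial (Fin n) ℚ ⧸ p) →+* _).comp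
      ((Ideal.Quotient.mk p).comp C)) hg Polynomial.X (fun i => Polynomial.C (Ideal.Quotient.mk p
      ((Fin.cons 1 X : Fin (n + 1) → MvPolynomial (Fin n) ℚ) i)))
  have h4 : Polynomial.monomial d (Ideal.Quotient.mk p (dehom g)) =
      Polynomial.X ^ d * Polynomial.C (Ideal.Quotient.mk p (dehom g)) := by
    rw [← Polynomial.C_mul_X_pow_eq_monomial]
    exact Polynomial.X_pow_mul.symm
  rw [h4]
  change eval₂ _ _ g = _
  rw [h1, rho_one]

theorem rho_eq_zero (p : Ideal (MvPolynomial (Fin n) ℚ)) {g : MvPolynomial (Fin (n + 1)) ℚ}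
    (hg : rho p g = 0) (d : ℕ) : dehom (homogeneousComponent d g) ∈ p := by
  by_cases hd : g.totalDegree < d
  · rw [homogeneousComponent_eq_zero _ _ hd, map_zero]
    exact p.zero_mem
  have h1 : rho p g = ∑ d ∈ Finset.range (g.totalDegree + 1),
      Polynomial.monomial d (Ideal.Quotient.mk p (dehom (homogeneousComponent d g))) := by
    conv_lhs => rw [← sum_homogeneousComponent g, map_sum]
    exact Finset.sum_congr rfl fun d _ => rho_hom p (homogeneousComponent_isHomogeneous d g)
  rw [hg] at h1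
  have h2 := congrArg (fun q => Polynomial.coeff q d) h1
  simp only [Polynomial.finsetSum_coeff, Polynomial.coeff_monomial, Polynomial.coeff_zero,
    Finset.sum_ite_eq', Finset.mem_range] at h2
  rw [if_pos (by omega)] at h2
  exact Ideal.Quotient.eq_zero_iff_mem.1 h2.symm

theorem span_clo (p : Ideal (MvPolynomial (Fin n) ℚ)) :
    Ideal.span (clo p) = RingHom.ker (rho p) := by
  apply le_antisymm
  · rw [Ideal.span_le]
    rintro g ⟨⟨d, hd⟩, hg⟩
    rw [SetLike.mem_coe, RingHom.mem_ker, rho_hom p hd, Ideal.Quotient.eq_zero_iff_mem.2 hg,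
      map_zero]
  · intro g hg
    rw [← sum_homogeneousComponent g]
    exact Ideal.sum_mem _ fun d _ => Ideal.subset_span
      ⟨⟨d, homogeneousComponent_isHomogeneous d g⟩, rho_eq_zero p hg d⟩

theorem clo_prime {p : Ideal (MvPolynomial (Fin n) ℚ)} (hp : p.IsPrime) :
    (Ideal.span (clo p)).radical.IsPrime := by
  have : (Ideal.span (clo p)).IsPrime := by
    rw [span_clo]
    exact RingHom.ker_isPrime _
  rw [this.radical]
  exact this

end hom

section up

variable {L : Type} [NontriviallyNormedField L] {σ : ℚ →+* L} {n : ℕ}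

/-- the local ideals of an affine variety and of its projective closure -/
theorem locId_clo (p : Ideal (MvPolynomial (Fin n) ℚ)) (x : Fin n → L) :
    locId σ (p : Set (MvPolynomial (Fin n) ℚ)) x = {f | homog f ∈
      {f : MvPolynomial (Fin (n + 1)) ℚ |
          ∃ U ∈ nhds (Fin.cons 1 x : Fin (n + 1) → L), ∀ y : Fin (n + 1) → ℚ, y ≠ 0 →
            (∀ g ∈ clo p, MvPolynomial.eval y g = 0) →
            (∃ c : L, c ≠ 0 ∧ (fun i => c * σ (y i)) ∈ U) →
            ∀ t : ℚ, MvPolynomial.eval (t • y) f = 0}} := by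
  ext f
  simp only [Set.mem_ofPred_eq]
  constructor
  · rintro ⟨U, hU, hf⟩
    have hc : ContinuousAt (fun (z : Fin (n + 1) → L) (j : Fin n) => (z 0)⁻¹ * z j.succ)
        (Fin.cons 1 x : Fin (n + 1) → L) := by
      refine continuousAt_pi.2 fun j => ?_
      exact ((continuous_apply 0).continuousAt.inv₀ (by simp)).mul (continuous_apply _).continuousAt
    have h1 := hc.preimage_mem_nhds (t := U) (by
      convert! hU using 1
      simp)
    have h2 : {z : Fin (n + 1) → L | z 0 ≠ 0} ∈ nhds (Fin.cons 1 x : Fin (n + 1) → L) :=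
      (isOpen_ne_fun (continuous_apply 0) continuous_const).mem_nhds (by simp)
    refine ⟨_, Filter.inter_mem h1 h2, ?_⟩
    rintro y - hyS ⟨c, hc0, hcU, hc1⟩ t
    have hy0 : y 0 ≠ 0 := by
      intro h0
      apply hc1
      change c * σ (y 0) = 0
      rw [h0, map_zero, mul_zero]
    have hyy : y = y 0 • (Fin.cons 1 (fun j : Fin n => (y 0)⁻¹ * y j.succ) : Fin (n + 1) → ℚ) := by
      funext i
      refine Fin.cases ?_ (fun j => ?_) i
      · simp
      · simp [mul_inv_cancel_left₀ hy0]
    have h3 := hf (fun j : Fin n => (y 0)⁻¹ * y j.succ) (by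
      intro g hg
      have h4 := hyS (homog g) ⟨⟨_, homog_hom g⟩, by rwa [dehom_homog]⟩
      rw [hyy, eval_scale (homog_hom g)] at h4
      have h5 := (mul_eq_zero.1 h4).resolve_left (pow_ne_zero _ hy0)
      rw [← eval_dehom, dehom_homog] at h5
      exact h5) (by
      change (fun j : Fin n => (c * σ (y 0))⁻¹ * (c * σ (y j.succ))) ∈ U at hcU
      convert! hcU using 1
      funext j
      have hσ : σ (y 0) ≠ 0 := (map_ne_zero σ).2 hy0
      rw [map_mul, map_inv₀, mul_inv]
      field_simp)
    rw [hyy, ← mul_smul, eval_scale (homog_hom f), ← eval_dehom, dehom_homog, h3, mul_zero]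
  · rintro ⟨U, hU, hf⟩
    have hc : Continuous fun (z : Fin n → L) => (Fin.cons 1 z : Fin (n + 1) → L) := by
      refine continuous_pi fun i => ?_
      refine Fin.cases ?_ (fun j => ?_) i
      · simp only [Fin.cons_zero]
        exact continuous_const
      · simp only [Fin.cons_succ]
        exact continuous_apply j
    refine ⟨_, hc.continuousAt.preimage_mem_nhds hU, fun y hy hyU => ?_⟩
    have h1 := hf (Fin.cons 1 y) (fun h0 => by
      have := congrFun h0 0
      simp at this) (by
      rintro g ⟨-, hg⟩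
      rw [← eval_dehom]
      exact hy _ hg) ⟨1, one_ne_zero, by
        change (Fin.cons 1 (fun i => σ (y i)) : Fin (n + 1) → L) ∈ U at hyU
        convert! hyU using 1
        funext i
        refine Fin.cases ?_ (fun j => ?_) i
        · simp
        · simp⟩ 1
    rwa [one_smul, ← eval_dehom, dehom_homog] at h1

/-- **From projective to affine varieties.** -/
theorem aff_of_q1Proj (h : Q1Proj σ) (n : ℕ) (F : Set (MvPolynomial (Fin n) ℚ)) : FinLoc σ F := by
  classical
  let I : Ideal (MvPolynomial (Fin n) ℚ) :=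
    ⨅ y : {y : Fin n → ℚ // ∀ g ∈ F, eval y g = 0}, RingHom.ker (eval y.1)
  have hI : ∀ f, f ∈ I ↔ ∀ y : Fin n → ℚ, (∀ g ∈ F, eval y g = 0) → eval y f = 0 := by
    intro f
    simp only [I, Ideal.mem_iInf, RingHom.mem_ker, Subtype.forall]
  have hfin : (I.minimalPrimes).Finite := Ideal.finite_minimalPrimes_of_isNoetherianRing _ _
  -- the rational points
  have hrat : ∀ y : Fin n → ℚ, (∀ g ∈ F, eval y g = 0) ↔
      ∃ p ∈ I.minimalPrimes, ∀ g ∈ p, eval y g = 0 := by
    intro y
    constructor
    · intro hy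
      have hle : I ≤ RingHom.ker (eval y) := fun f hf => (hI f).1 hf y hy
      have hpr : (RingHom.ker (eval y)).IsPrime := RingHom.ker_isPrime _
      obtain ⟨p, hp, hpy⟩ := Ideal.exists_minimalPrimes_le hle
      exact ⟨p, hp, fun g hg => hpy hg⟩
    · rintro ⟨p, hp, hy⟩ g hg
      exact hy g (hp.1.2 ((hI g).2 fun z hz => hz g hg))
  -- the local ideals
  have hloc : ∀ x : Fin n → L, locId σ F x = {f | ∀ p ∈ I.minimalPrimes,
      f ∈ locId σ (p : Set (MvPolynomial (Fin n) ℚ)) x} := by
    intro x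
    ext f
    rw [Set.mem_ofPred_eq]
    constructor
    · rintro ⟨U, hU, hf⟩ p hp
      exact ⟨U, hU, fun y hy hyU => hf y ((hrat y).2 ⟨p, hp, hy⟩) hyU⟩
    · intro hf
      have hf' : ∀ p : I.minimalPrimes, ∃ U ∈ nhds x, ∀ y : Fin n → ℚ, (∀ g ∈ p.1, eval y g = 0) →
          (fun i => σ (y i)) ∈ U → eval y f = 0 := fun p => hf p.1 p.2
      choose U hU hfU using hf'
      have := hfin.to_subtype
      refine ⟨⋂ p, U p, Filter.iInter_mem.2 hU, fun y hy hyU => ?_⟩
      obtain ⟨p, hp, hy'⟩ := (hrat y).1 hy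
      exact hfU ⟨p, hp⟩ y hy' (Set.mem_iInter.1 hyU _)
  -- finiteness for the components
  have hcomp : ∀ p ∈ I.minimalPrimes,
      (Set.range fun x : Fin n → L => locId σ (p : Set (MvPolynomial (Fin n) ℚ)) x).Finite := by
    intro p hp
    have h1 := h n (clo p) (fun f hf => hf.1) (clo_prime hp.1.1)
    refine ((h1.image fun J => {f | homog f ∈ J}).union (Set.finite_singleton Set.univ)).subset ?_
    rintro _ ⟨x, rfl⟩
    by_cases hx : x ∈ closure {z : Fin n → L | ∃ y : Fin n → ℚ,
        (∀ g ∈ (p : Set (MvPolynomial (Fin n) ℚ)), eval y g = 0) ∧ z = fun i => σ (y i)}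
    · refine Or.inl ⟨_, ⟨Fin.cons 1 x, fun h0 => ?_, fun g hg => ?_, rfl⟩, (locId_clo p x).symm⟩
      · have := congrFun h0 0
        simp at this
      · rw [← eval₂_dehom]
        exact mem_of_closure hx _ hg.2
    · exact Or.inr (locId_univ hx)
  have hfin2 : (Set.range fun x : Fin n → L => fun p : I.minimalPrimes =>
      locId σ (p.1 : Set (MvPolynomial (Fin n) ℚ)) x).Finite := by
    have := hfin.to_subtype
    refine (Set.Finite.pi' (t := fun p : I.minimalPrimes =>
      Set.range fun x : Fin n → L => locId σ (p.1 : Set (MvPolynomial (Fin n) ℚ)) x)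
      fun p => hcomp p.1 p.2).subset ?_
    rintro _ ⟨x, rfl⟩ p
    exact ⟨x, rfl⟩
  refine (hfin2.image fun J => {f | ∀ p : I.minimalPrimes, f ∈ J p}).subset ?_
  rintro _ ⟨x, -, rfl⟩
  refine ⟨_, ⟨x, rfl⟩, ?_⟩
  rw [hloc x]
  ext f
  simp only [Set.mem_ofPred_eq, Subtype.forall]

/-- reindexing -/
theorem finLoc_equiv {ι κ : Type} (e : ι ≃ κ) {F : Set (MvPolynomial ι ℚ)}
    (h : FinLoc σ (rename e '' F)) : FinLoc σ F := by
  have h1 : ∀ x : ι → L, locId σ F x = {f | rename e f ∈ locId σ (rename e '' F)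
      (fun j => x (e.symm j))} := by
    intro x
    have hc1 : Continuous fun (z : κ → L) (i : ι) => z (e i) := by fun_prop
    have hc2 : Continuous fun (z : ι → L) (j : κ) => z (e.symm j) := by fun_prop
    ext f
    rw [Set.mem_ofPred_eq]
    constructor
    · rintro ⟨U, hU, hf⟩
      refine ⟨_, hc1.continuousAt.preimage_mem_nhds (by
        simp only [Equiv.symm_apply_apply]
        exact hU), fun y hy hyU => ?_⟩
      rw [eval_rename]
      refine hf (y ∘ e) (fun g hg => ?_) hyU
      have := hy _ ⟨g, hg, rfl⟩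
      rwa [eval_rename] at this
    · rintro ⟨U, hU, hf⟩
      refine ⟨_, hc2.continuousAt.preimage_mem_nhds hU, fun y hy hyU => ?_⟩
      have h2 := hf (fun j => y (e.symm j)) (by
        rintro _ ⟨g, hg, rfl⟩
        rw [eval_rename]
        have : (fun j => y (e.symm j)) ∘ e = y := by
          funext i
          simp
        rw [this]
        exact hy g hg) hyU
      rw [eval_rename] at h2
      have : (fun j => y (e.symm j)) ∘ e = y := by
        funext i
        simp
      rwa [this] at h2
  refine (h.image fun I => {f | rename e f ∈ I}).subset ?_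
  rintro _ ⟨x, hx, rfl⟩
  refine ⟨_, ⟨fun j => x (e.symm j), ?_, rfl⟩, (h1 x).symm⟩
  rintro _ ⟨g, hg, rfl⟩
  rw [eval₂_rename]
  have : (fun j => x (e.symm j)) ∘ e = x := by
    funext i
    simp
  rw [this]
  exact hx g hg

/-- **Reduction to smooth hypersurfaces of `P^n × E^{n+2}`.** -/
theorem q1Proj_iff (δ : ℕ → ℕ) (hδ : ∀ N, Even (δ N) ∧ 4 ≤ δ N) :
    Q1Proj σ ↔ ∀ (n : ℕ) (G : MvPolynomial (Co n (n + 2)) ℚ), IsMulti (δ n) 2 G → SmoothHyp G →
      OneFibre G → ∀ i c, FinLoc σ (chartEqs G i c) := by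
  constructor
  · intro h n G _ _ _ i c
    exact finLoc_equiv (Fintype.equivFin _) (aff_of_q1Proj h _ _)
  · intro h
    refine q1Proj_of_aff fun n F => finLoc_of_finset (fun F => ?_) F
    obtain ⟨N, i0, φ, π, G, hG1, hG2, -, hφ, hG3, hG⟩ := exists_chart δ hδ F
    exact finLoc_of_chart hφ hG (h N G hG1 hG2 hG3 i0 fun _ => 1)

end up

end Pool.Agent.U207.MZ
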