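import Pool.Agent.U207.MZ.Ex

/-!
Project MZ (helper207), part F: affine varieties as charts of intersections of quadrics, and of the
smooth hypersurfaces.
-/

set_option autoImplicit false

namespace Pool.Agent.U207.MZ

open MvPolynomial

section quad

variable {n : ℕ}

/-- the exponents -/
abbrev Ex (n d : ℕ) := Fin n → Fin (d + 2)

/-- the exponent as a finitely supported function -/
noncomputable def fs {d : ℕ} (α : Ex n d) : Fin n →₀ ℕ :=
  Finsupp.equivFunOnFinite.symm fun i => (α i : ℕ)

theorem fs_apply {d : ℕ} (α : Ex n d) (i : Fin n) : fs α i = α i := rfl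

theorem fs_inj {d : ℕ} : Function.Injective (fs : Ex n d → Fin n →₀ ℕ) := by
  intro α β h
  funext i
  exact Fin.ext (DFunLike.congr_fun h i)

/-- the values of a polynomial of degree at most `d + 1` in each variable -/
theorem eval_ex {d : ℕ} {f : MvPolynomial (Fin n) ℚ} (hf : ∀ i, degreeOf i f ≤ d + 1)
    (x : Fin n → ℚ) : eval x f = ∑ α : Ex n d, coeff (fs α) f * ∏ i, x i ^ (α i : ℕ) := by
  classical
  rw [eval_eq']
  symm
  have h1 : ∑ α : Ex n d, coeff (fs α) f * ∏ i, x i ^ (α i : ℕ) =
      ∑ s ∈ (Finset.univ : Finset (Ex n d)).image fs, coeff s f * ∏ i, x i ^ (s i) := by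
    rw [Finset.sum_image fun α _ β _ h => fs_inj h]
    rfl
  rw [h1]
  symm
  refine Finset.sum_subset ?_ ?_
  · intro s hs
    rw [Finset.mem_image]
    refine ⟨fun i => ⟨s i, ?_⟩, Finset.mem_univ _, ?_⟩
    · have := monomial_le_degreeOf i hs
      have := hf i
      omega
    · ext i
      rfl
  · intro s _ hs
    rw [notMem_support_iff.1 hs, zero_mul]

/-- the unit vectors -/
def un {d : ℕ} (i : Fin n) : Ex n d := Function.update 0 i 1

/-- the quadrics -/
noncomputable def qd (d : ℕ) (F : Finset (MvPolynomial (Fin n) ℚ)) :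
    (Ex n d × Fin n) ⊕ F → MvPolynomial (Ex n d) ℚ :=
  Sum.elim (fun p => if p.1 p.2 = 0 then 0 else
      X p.1 * X 0 - X (Function.update p.1 p.2 (p.1 p.2 - 1)) * X (un p.2))
    (fun f => X 0 * ∑ α, C (coeff (fs α) f.1) * X α)

theorem qd_hom (d : ℕ) (F : Finset (MvPolynomial (Fin n) ℚ)) (i : (Ex n d × Fin n) ⊕ F) :
    (qd d F i).IsHomogeneous 2 := by
  rcases i with p | f
  · simp only [qd, Sum.elim_inl]
    split_ifs
    · exact isHomogeneous_zero _ _ _
    · exact ((isHomogeneous_X _ _).mul (isHomogeneous_X _ _)).sub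
        ((isHomogeneous_X _ _).mul (isHomogeneous_X _ _))
  · simp only [qd, Sum.elim_inr]
    refine (isHomogeneous_X _ _).mul (n := 1) (IsHomogeneous.sum _ _ _ fun α _ => ?_)
    have := (isHomogeneous_C (Ex n d) (coeff (fs α) f.1)).mul (isHomogeneous_X ℚ α)
    rwa [zero_add] at this

theorem qd_iff {d : ℕ} {F : Finset (MvPolynomial (Fin n) ℚ)}
    (hF : ∀ f ∈ F, ∀ i, degreeOf i f ≤ d + 1) {y : Ex n d → ℚ} (hy : y 0 = 1) :
    (∀ i, aeval y (qd d F i) = 0) ↔ (∀ f ∈ F, eval (fun i => y (un i)) f = 0) ∧
      ∀ α, y α = ∏ i, y (un i) ^ (α i : ℕ) := by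
  classical
  have h1 : (∀ p : Ex n d × Fin n, aeval y (qd d F (Sum.inl p)) = 0) ↔
      ∀ α, y α = ∏ i, y (un i) ^ (α i : ℕ) := by
    constructor
    · intro h
      have key : ∀ (s : ℕ) (α : Ex n d), ∑ i, (α i : ℕ) = s → y α = ∏ i, y (un i) ^ (α i : ℕ) := by
        intro s
        induction s with
        | zero =>
          intro α hα
          have h0 : ∀ i, α i = 0 := fun i => Fin.ext ((Finset.sum_eq_zero_iff.1 hα) i
            (Finset.mem_univ i))
          have : α = 0 := funext h0
          subst this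
          simp [hy]
        | succ s ih =>
          intro α hα
          obtain ⟨i, -, hi⟩ := Finset.exists_ne_zero_of_sum_ne_zero
            (s := Finset.univ) (f := fun i => (α i : ℕ)) (by rw [hα]; omega)
          have hi0 : α i ≠ 0 := fun h0 => hi (by rw [h0]; rfl)
          have h2 := h (α, i)
          simp only [qd, Sum.elim_inl, if_neg hi0, map_sub, map_mul, aeval_X, hy, mul_one] at h2
          have hval : ((α i - 1 : Fin (d + 2)) : ℕ) = (α i : ℕ) - 1 := by
            have hle : (1 : Fin (d + 2)) ≤ α i := by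
              rw [Fin.le_def]
              simpa using Nat.one_le_iff_ne_zero.2 hi
            rw [Fin.sub_val_of_le hle]
            simp
          have hsum : ∑ j, ((Function.update α i (α i - 1) : Ex n d) j : ℕ) = s := by
            have e1 := Finset.add_sum_erase Finset.univ (fun j => (α j : ℕ)) (Finset.mem_univ i)
            have e2 := Finset.add_sum_erase Finset.univ
              (fun j => ((Function.update α i (α i - 1) : Ex n d) j : ℕ)) (Finset.mem_univ i)
            have e3 : ∑ j ∈ Finset.univ.erase i, ((Function.update α i (α i - 1) : Ex n d) j : ℕ) =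
                ∑ j ∈ Finset.univ.erase i, (α j : ℕ) := Finset.sum_congr rfl fun j hj => by
              rw [Function.update_of_ne (Finset.ne_of_mem_erase hj)]
            simp only [Function.update_self] at e2
            rw [e3, hval] at e2
            omega
          have h3 := ih _ hsum
          have h4 : y α = y (Function.update α i (α i - 1)) * y (un i) := by linarith
          rw [h4, h3, ← Finset.mul_prod_erase Finset.univ _ (Finset.mem_univ i),
            ← Finset.mul_prod_erase Finset.univ (fun j => y (un j) ^ (α j : ℕ))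
              (Finset.mem_univ i)]
          have e3 : ∏ j ∈ Finset.univ.erase i,
              y (un j) ^ ((Function.update α i (α i - 1) : Ex n d) j : ℕ) =
              ∏ j ∈ Finset.univ.erase i, y (un j) ^ (α j : ℕ) :=
            Finset.prod_congr rfl fun j hj => by
              rw [Function.update_of_ne (Finset.ne_of_mem_erase hj)]
          rw [e3, Function.update_self, hval]
          have e4 : y (un i) ^ (α i : ℕ) = y (un i) ^ ((α i : ℕ) - 1) * y (un i) := by
            rw [← pow_succ, Nat.sub_add_cancel (Nat.one_le_iff_ne_zero.2 hi)]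
          rw [e4]
          ring
      exact fun α => key _ α rfl
    · intro h p
      simp only [qd, Sum.elim_inl]
      split_ifs with h0
      · exact map_zero _
      · rw [map_sub, map_mul, map_mul, aeval_X, aeval_X, aeval_X, aeval_X, hy, mul_one, sub_eq_zero,
          h p.1, h (Function.update p.1 p.2 (p.1 p.2 - 1)),
          ← Finset.mul_prod_erase Finset.univ _ (Finset.mem_univ p.2),
          ← Finset.mul_prod_erase Finset.univ (fun j =>
            y (un j) ^ ((Function.update p.1 p.2 (p.1 p.2 - 1) : Ex n d) j : ℕ))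
            (Finset.mem_univ p.2)]
        have e3 : ∏ j ∈ Finset.univ.erase p.2,
            y (un j) ^ ((Function.update p.1 p.2 (p.1 p.2 - 1) : Ex n d) j : ℕ) =
            ∏ j ∈ Finset.univ.erase p.2, y (un j) ^ (p.1 j : ℕ) :=
          Finset.prod_congr rfl fun j hj => by
            rw [Function.update_of_ne (Finset.ne_of_mem_erase hj)]
        have hi : (p.1 p.2 : ℕ) ≠ 0 := fun h1 => h0 (Fin.ext h1)
        have hval : ((p.1 p.2 - 1 : Fin (d + 2)) : ℕ) = (p.1 p.2 : ℕ) - 1 := by
          have hle : (1 : Fin (d + 2)) ≤ p.1 p.2 := by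
            rw [Fin.le_def]
            simpa using Nat.one_le_iff_ne_zero.2 hi
          rw [Fin.sub_val_of_le hle]
          simp
        rw [e3, Function.update_self, hval]
        have e4 : y (un p.2) ^ (p.1 p.2 : ℕ) = y (un p.2) ^ ((p.1 p.2 : ℕ) - 1) * y (un p.2) := by
          rw [← pow_succ, Nat.sub_add_cancel (Nat.one_le_iff_ne_zero.2 hi)]
        rw [e4]
        ring
  have h2 : (∀ α, y α = ∏ i, y (un i) ^ (α i : ℕ)) →
      ((∀ f : F, aeval y (qd d F (Sum.inr f)) = 0) ↔ ∀ f ∈ F, eval (fun i => y (un i)) f = 0) := by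
    intro h
    have h3 : ∀ f : F, aeval y (qd d F (Sum.inr f)) = eval (fun i => y (un i)) f.1 := by
      intro f
      rw [eval_ex (hF f.1 f.2)]
      simp only [qd, Sum.elim_inr, map_mul, map_sum, aeval_X, hy, one_mul, algHom_C]
      refine Finset.sum_congr rfl fun α _ => ?_
      rw [h α]
      rfl
    simp only [h3]
    exact ⟨fun h4 f hf => h4 ⟨f, hf⟩, fun h4 f => h4 f.1 f.2⟩
  constructor
  · intro h
    have h3 := h1.1 fun p => h (Sum.inl p)
    exact ⟨(h2 h3).1 fun f => h (Sum.inr f), h3⟩
  · rintro ⟨h3, h4⟩ (p | f)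
    · exact h1.2 h4 p
    · exact (h2 h4).2 h3 f

/-- **Affine varieties as charts of intersections of quadrics.** -/
theorem exists_quad (F : Finset (MvPolynomial (Fin n) ℚ)) :
    ∃ (N : ℕ) (i0 : Fin (N + 1)) (κ : Type) (_ : Fintype κ)
      (Q : κ → MvPolynomial (Fin (N + 1)) ℚ) (φ : Fin (N + 1) → MvPolynomial (Fin n) ℚ)
      (π : Fin n → Fin (N + 1)), (∀ i, (Q i).IsHomogeneous 2) ∧ φ i0 = 1 ∧
      (∀ i, φ (π i) = X i) ∧ ∀ y : Fin (N + 1) → ℚ, y i0 = 1 → ((∀ i, aeval y (Q i) = 0) ↔
        (∀ f ∈ F, eval (fun i => y (π i)) f = 0) ∧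
          ∀ j, y j = eval (fun i => y (π i)) (φ j)) := by
  classical
  set d := F.sup fun f => Finset.univ.sup fun i => degreeOf i f with hd
  have hF : ∀ f ∈ F, ∀ i, degreeOf i f ≤ d + 1 := by
    intro f hf i
    have h1 : degreeOf i f ≤ Finset.univ.sup fun i => degreeOf i f :=
      Finset.le_sup (f := fun i => degreeOf i f) (Finset.mem_univ i)
    have h2 : (Finset.univ.sup fun i => degreeOf i f) ≤ d :=
      Finset.le_sup (f := fun f => Finset.univ.sup fun i => degreeOf i f) hf
    omega
  obtain ⟨N, hN⟩ : ∃ N, Fintype.card (Ex n d) = N + 1 :=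
    ⟨Fintype.card (Ex n d) - 1, (Nat.sub_add_cancel Fintype.card_pos).symm⟩
  let e : Ex n d ≃ Fin (N + 1) := Fintype.equivFinOfCardEq hN
  refine ⟨N, e 0, (Ex n d × Fin n) ⊕ F, inferInstance, fun i => rename e (qd d F i),
    fun j => ∏ i, X i ^ (e.symm j i : ℕ), fun i => e (un i), fun i => ?_, ?_, ?_, ?_⟩
  · exact (qd_hom d F i).rename_isHomogeneous
  · simp
  · intro i
    simp only [Equiv.symm_apply_apply, un]
    rw [Finset.prod_eq_single i]
    · rw [Function.update_self]
      simp
    · intro j _ hj
      rw [Function.update_of_ne hj]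
      simp
    · intro h
      exact absurd (Finset.mem_univ _) h
  · intro y hy
    have h1 : ∀ i, aeval y (rename e (qd d F i)) = aeval (fun α => y (e α)) (qd d F i) :=
      fun i => aeval_rename _ _ _
    simp only [h1]
    rw [qd_iff hF (y := fun α => y (e α)) hy]
    refine and_congr_right fun _ => ?_
    simp only [map_prod, map_pow, eval_X]
    constructor
    · intro h j
      have := h (e.symm j)
      rwa [Equiv.apply_symm_apply] at this
    · intro h α
      have := h (e α)
      rwa [Equiv.symm_apply_apply] at this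

end quad

end Pool.Agent.U207.MZ
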