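import Pool.Agent.U207.MZ.Smo

/-!
Project MZ (helper207), part D: hypersurfaces whose rational points are those of one fibre.
-/

set_option autoImplicit false

namespace Pool.Agent.U207.MZ

open MvPolynomial

/-- the rational points of the Fermat cubic -/
theorem cub_rat {t : Fin 3 → ℚ} (ht : t ≠ 0) (h : t 0 ^ 3 + t 1 ^ 3 - t 2 ^ 3 = 0) :
    ∃ l : ℚ, l ≠ 0 ∧ ((t 0 = 0 ∧ t 1 = l ∧ t 2 = l) ∨ (t 0 = l ∧ t 1 = 0 ∧ t 2 = l) ∨
      (t 0 = l ∧ t 1 = -l ∧ t 2 = 0)) := by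
  have hinj : Function.Injective fun x : ℚ => x ^ 3 := Odd.pow_injective (by decide)
  have hne : ∀ l : ℚ, (t 0 = 0 → t 1 = 0 → t 2 = 0 → False) := fun _ h0 h1 h2 => ht (by
    funext c
    fin_cases c
    · exact h0
    · exact h1
    · exact h2)
  have h3 := fermatLastTheoremFor_iff_rat.1 fermatLastTheoremThree
  by_cases h0 : t 0 = 0
  · have e : t 1 = t 2 := hinj (by
      change t 1 ^ 3 = t 2 ^ 3
      rw [h0] at h
      linear_combination h)
    exact ⟨t 1, fun h1 => hne 0 h0 h1 (e ▸ h1), Or.inl ⟨h0, rfl, e.symm⟩⟩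
  by_cases h1 : t 1 = 0
  · have e : t 0 = t 2 := hinj (by
      change t 0 ^ 3 = t 2 ^ 3
      rw [h1] at h
      linear_combination h)
    exact ⟨t 0, h0, Or.inr (Or.inl ⟨rfl, h1, e.symm⟩)⟩
  by_cases h2 : t 2 = 0
  · have e : t 1 = - t 0 := hinj (by
      change t 1 ^ 3 = (- t 0) ^ 3
      rw [h2] at h
      linear_combination h)
    exact ⟨t 0, h0, Or.inr (Or.inr ⟨rfl, e, h2⟩)⟩
  · exact absurd (sub_eq_zero.1 h) (h3 (t 0) (t 1) (t 2) h0 h1 h2)

section poly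

variable {n m : ℕ} {ι : Type} [Fintype ι]

/-- the positive form which vanishes at the base point only -/
noncomputable def psi (n m : ℕ) : MvPolynomial (Co n m) ℚ :=
  ∑ k : Fin m, lf ℚ k 1 ^ 2 *
    ∏ j ∈ Finset.univ.erase k, (X (Sum.inr (j, 1)) ^ 2 + X (Sum.inr (j, 2)) ^ 2)

/-- the special member -/
noncomputable def G0 (m d : ℕ) (P : ι → MvPolynomial (Fin (n + 1)) ℚ) : MvPolynomial (Co n m) ℚ :=
  rename Sum.inl (∑ i, P i ^ 2) * ∏ k : Fin m, X (Sum.inr (k, 2)) ^ 2 +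
    psi n m * ∑ j : Fin (n + 1), X (Sum.inl j) ^ (2 * d)

theorem aeval_G0 {R : Type} [CommRing R] [Algebra ℚ R] (d : ℕ)
    (P : ι → MvPolynomial (Fin (n + 1)) ℚ) (z : Co n m → R) :
    aeval z (G0 m d P) =
      (∑ i, aeval (fun j => z (Sum.inl j)) (P i) ^ 2) * ∏ k : Fin m, z (Sum.inr (k, 2)) ^ 2 +
      (∑ k : Fin m, (z (Sum.inr (k, 2)) - z (Sum.inr (k, 1))) ^ 2 *
        ∏ j ∈ Finset.univ.erase k, (z (Sum.inr (j, 1)) ^ 2 + z (Sum.inr (j, 2)) ^ 2)) *
        ∑ j : Fin (n + 1), z (Sum.inl j) ^ (2 * d) := by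
  have h1 : ∀ p : MvPolynomial (Fin (n + 1)) ℚ, aeval z (rename Sum.inl p : MvPolynomial (Co n m) ℚ) =
      aeval (fun j => z (Sum.inl j)) p := fun p => aeval_rename _ _ _
  simp only [G0, psi, map_add, map_mul, map_sum, map_prod, map_pow, aeval_X, h1, aeval_lf]
  simp [lv]

theorem pder_G0 (d : ℕ) (P : ι → MvPolynomial (Fin (n + 1)) ℚ) (k : Fin m) :
    pderiv (Sum.inr (k, 0)) (G0 m d P) = 0 := by
  classical
  have hX : ∀ j, j ≠ (Sum.inr (k, 0) : Co n m) →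
      pderiv (Sum.inr (k, 0)) (X j : MvPolynomial (Co n m) ℚ) = 0 := fun j hj => pderiv_X_of_ne hj
  have hmul : ∀ p q : MvPolynomial (Co n m) ℚ, pderiv (Sum.inr (k, 0)) p = 0 →
      pderiv (Sum.inr (k, 0)) q = 0 → pderiv (Sum.inr (k, 0)) (p * q) = 0 := by
    intro p q hp hq
    rw [Derivation.leibniz, hp, hq]
    simp
  have hpow : ∀ (p : MvPolynomial (Co n m) ℚ) (r : ℕ), pderiv (Sum.inr (k, 0)) p = 0 →
      pderiv (Sum.inr (k, 0)) (p ^ r) = 0 := by
    intro p r hp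
    rw [Derivation.leibniz_pow, hp]
    simp
  have hprod : ∀ (s : Finset (Fin m)) (f : Fin m → MvPolynomial (Co n m) ℚ),
      (∀ j, pderiv (Sum.inr (k, 0)) (f j) = 0) →
        pderiv (Sum.inr (k, 0)) (∏ j ∈ s, f j) = 0 := by
    intro s f hf
    exact Finset.prod_induction _ (fun p => pderiv (Sum.inr (k, 0)) p = 0) hmul (by simp)
      (fun j _ => hf j)
  have hren : ∀ p : MvPolynomial (Fin (n + 1)) ℚ,
      pderiv (Sum.inr (k, 0)) (rename Sum.inl p : MvPolynomial (Co n m) ℚ) = 0 := by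
    intro p
    apply pderiv_eq_zero_of_notMem_vars
    intro hmem
    obtain ⟨j, -, hj⟩ := Finset.mem_image.1 (vars_rename _ _ hmem)
    simp at hj
  unfold G0 psi
  rw [map_add, hmul _ _ (hren _) (hprod _ _ fun j => hpow _ _ (hX _ (by simp))), zero_add]
  refine hmul _ _ ?_ ?_
  · rw [map_sum]
    refine Finset.sum_eq_zero fun j _ => hmul _ _ (hpow _ _ ?_) (hprod _ _ fun i => ?_)
    · simp only [lf, Matrix.cons_val_one, Matrix.cons_val_zero]
      rw [map_sub, hX _ (by simp), hX _ (by simp), sub_zero]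
    · rw [map_add, hpow _ _ (hX _ (by simp)), hpow _ _ (hX _ (by simp)), add_zero]
  · rw [map_sum]
    exact Finset.sum_eq_zero fun j _ => hpow _ _ (hX _ (by simp))

end poly

section bound

/-- monomials are bounded by the power sum -/
theorem mono_le {n d : ℕ} (x : Fin (n + 1) → ℚ) (β : Fin (2 * d) → Fin (n + 1)) :
    |∏ t, x (β t)| ≤ ∑ j, x j ^ (2 * d) := by
  obtain ⟨i, hi⟩ := Finite.exists_max fun j => |x j|
  calc |∏ t, x (β t)| = ∏ t, |x (β t)| := Finset.abs_prod _ _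
    _ ≤ ∏ _t : Fin (2 * d), |x i| := Finset.prod_le_prod (fun _ _ => abs_nonneg _) fun t _ => hi _
    _ = x i ^ (2 * d) := by
      rw [Finset.prod_const, Finset.card_univ, Fintype.card_fin, pow_mul, sq_abs, pow_mul]
    _ ≤ ∑ j, x j ^ (2 * d) := Finset.single_le_sum (f := fun j => x j ^ (2 * d))
      (fun j _ => by
        change 0 ≤ x j ^ (2 * d)
        rw [pow_mul]
        positivity) (Finset.mem_univ i)

theorem sum_pos' {n d : ℕ} {x : Fin (n + 1) → ℚ} (hx : ∃ j, x j ≠ 0) :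
    0 < ∑ j, x j ^ (2 * d) := by
  obtain ⟨i, hi⟩ := hx
  refine Finset.sum_pos' (fun j _ => ?_) ⟨i, Finset.mem_univ i, ?_⟩
  · rw [pow_mul]
    positivity
  · rw [pow_mul]
    positivity

end bound

end Pool.Agent.U207.MZ
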