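import Pool.Agent.U207.MZ.Fam

/-!
Project MZ (helper207), part C: smoothness for general coefficients and for special ones.
-/

set_option autoImplicit false

namespace Pool.Agent.U207.MZ

open MvPolynomial

section sys

variable {K : Type} [Field K] {n m D : ℕ}

/-- the equations of the singular points -/
noncomputable def sys {R : Type} [CommRing R] [Algebra K R] (G0 : MvPolynomial (Co n m) K)
    (a : Par n m D → R) (z : Co n m → R) (ν : R) (μ : Fin m → R) : Unit ⊕ Fin m ⊕ Co n m → R :=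
  Sum.elim (fun _ => aeval z G0 + ∑ α, a α * aeval z (mon K α.1.1 α.2)) <|
    Sum.elim (fun k => aeval z (cub K k))
      (fun j => ν * (aeval z (pderiv j G0) + ∑ α, a α * aeval z (pderiv j (mon K α.1.1 α.2))) +
        ∑ k, μ k * aeval z (pderiv j (cub K k)))

theorem sys_map {R R' : Type} [CommRing R] [Algebra K R] [CommRing R'] [Algebra K R']
    (φ : R →ₐ[K] R') (G0 : MvPolynomial (Co n m) K)
    (a : Par n m D → R) (z : Co n m → R) (ν : R) (μ : Fin m → R) (i : Unit ⊕ Fin m ⊕ Co n m) :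
    φ (sys G0 a z ν μ i) = sys G0 (fun α => φ (a α)) (fun j => φ (z j)) (φ ν)
      (fun k => φ (μ k)) i := by
  have h : ∀ p : MvPolynomial (Co n m) K, φ (aeval z p) = aeval (fun j => φ (z j)) p := fun p =>
    MvPolynomial.comp_aeval_apply z φ p
  rcases i with i | k | j
  · simp only [sys, Sum.elim_inl, map_add, map_sum, map_mul, h]
  · simp only [sys, Sum.elim_inl, Sum.elim_inr, h]
  · simp only [sys, Sum.elim_inr, map_add, map_sum, map_mul, h]

end sys

section gen

variable {K : Type} [Field K] [CharZero K] {n m D : ℕ} {Ω : Type} [Field Ω] [Algebra K Ω]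

omit [CharZero K] in
/-- the base points -/
theorem bs_of {z : Co n m → Ω} (hx : (fun j => z (Sum.inl j)) ≠ 0)
    (ht : ∀ k, (fun c => z (Sum.inr (k, c))) ≠ 0)
    (h : ∀ α : Par n m D, aeval z (mon K α.1.1 α.2) = 0) : Bs z := by
  classical
  intro k0
  by_contra hcon
  obtain ⟨j0, hj0⟩ := Function.ne_iff.1 hx
  have h1 : ∃ e : Fin 6, e ≠ 5 ∧ qv (fun c => z (Sum.inr (k0, c))) e ≠ 0 := by
    by_cases h2 : z (Sum.inr (k0, 0)) = 0
    · refine ⟨3, by decide, ?_⟩
      have h3 : z (Sum.inr (k0, 2)) - z (Sum.inr (k0, 1)) ≠ 0 := fun h3 =>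
        hcon ⟨h2, sub_eq_zero.1 h3⟩
      simpa [qv, lv] using h3
    · exact ⟨0, by decide, by simpa [qv, lv] using h2⟩
  have h2 : ∀ k, ∃ e : Fin 6, qv (fun c => z (Sum.inr (k, c))) e ≠ 0 := by
    intro k
    by_contra h2
    push Not at h2
    apply ht k
    have e0 := h2 0
    have e3 := h2 3
    have e5 := h2 5
    simp only [qv, lv, Matrix.cons_val_zero, Matrix.cons_val_one, Matrix.cons_val,
      pow_eq_zero_iff, ne_eq, OfNat.ofNat_ne_zero, not_false_eq_true] at e0 e3 e5
    funext c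
    fin_cases c
    · exact e0
    · exact e5
    · simpa [e5] using e3
  obtain ⟨e, he5, he⟩ := h1
  choose q hq using h2
  have h3 := h ⟨⟨Function.update q k0 e, fun hh => he5 (by
    have := congrFun hh k0
    rwa [Function.update_self] at this)⟩, fun _ => j0⟩
  rw [aeval_mon] at h3
  refine mul_ne_zero ?_ ?_ h3
  · refine Finset.prod_ne_zero_iff.2 fun k _ => ?_
    change qv (fun c => z (Sum.inr (k, c))) (Function.update q k0 e k) ≠ 0
    by_cases hk : k = k0
    · subst hk
      rw [Function.update_self]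
      exact he
    · rw [Function.update_of_ne hk]
      exact hq k
  · exact Finset.prod_ne_zero_iff.2 fun _ _ => hj0

/-- **Smoothness for general coefficients.** -/
theorem gen_sys (hm : n + 2 ≤ m) {G0 : MvPolynomial (Co n m) K}
    (hG : ∀ z : Co n m → Ω, Bs z → ∀ k, aeval z (pderiv (Sum.inr (k, 0)) G0) = 0)
    {a : Par n m D → Ω} (ha : AlgebraicIndependent K a) {z : Co n m → Ω}
    (hx : (fun j => z (Sum.inl j)) ≠ 0) (ht : ∀ k, (fun c => z (Sum.inr (k, c))) ≠ 0)
    {ν : Ω} {μ : Fin m → Ω} (h : ∀ i, sys G0 a z ν μ i = 0) : ν = 0 := by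
  classical
  by_contra hν
  have h1 : aeval z G0 + ∑ α : Par n m D, a α * aeval z (mon K α.1.1 α.2) = 0 := h (Sum.inl ())
  have h2 : ∀ k, aeval z (cub K k : MvPolynomial (Co n m) K) = 0 := fun k => h (Sum.inr (Sum.inl k))
  have h3 : ∀ j, ν * (aeval z (pderiv j G0) +
      ∑ α : Par n m D, a α * aeval z (pderiv j (mon K α.1.1 α.2))) +
      ∑ k, μ k * aeval z (pderiv j (cub K k)) = 0 := fun j => h (Sum.inr (Sum.inr j))
  have h4 := gen_base G0 (fun α : Par n m D => mon K α.1.1 α.2) (cub K) ha h1 h2 h3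
  have hB : Bs z := bs_of (K := K) hx ht fun α : Par n m D =>
    (mul_eq_zero.1 (h4 α)).resolve_left hν
  have hv : ∀ k, z (Sum.inr (k, 1)) ≠ 0 := by
    intro k h0
    apply ht k
    funext c
    have e1 := (hB k).1
    have e2 := (hB k).2
    rw [h0] at e2
    fin_cases c
    · exact e1
    · exact h0
    · exact e2
  let qk : Fin m → {q : Fin m → Fin 6 // q ≠ fun _ => 5} := fun k =>
    ⟨Function.update (fun _ => 5) k 2, fun hh => by
      have := congrFun hh k
      rw [Function.update_self] at this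
      exact absurd this (by decide)⟩
  have hqk : Function.Injective qk := by
    intro k k' hkk
    by_contra hne
    have := congrFun (congrArg Subtype.val hkk) k
    simp only [qk] at this
    rw [Function.update_self, Function.update_of_ne hne] at this
    exact absurd this (by decide)
  have h5 : ∀ k, ∑ β : Fin D → Fin (n + 1), a (qk k, β) * ∏ t, z (Sum.inl (β t)) = 0 := by
    intro k
    have e1 := h3 (Sum.inr (k, 0))
    rw [hG z hB k] at e1
    have e2 : ∑ k', μ k' * aeval z (pderiv (Sum.inr (k, 0)) (cub K k')) = 0 := by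
      refine Finset.sum_eq_zero fun k' _ => ?_
      rw [pder_cub_r]
      split_ifs with hk
      · rw [hk, (hB k).1]
        simp
      · rw [mul_zero]
    rw [e2, zero_add, add_zero] at e1
    have e3 := (mul_eq_zero.1 e1).resolve_left hν
    rw [Fintype.sum_prod_type, Finset.sum_eq_single (qk k)] at e3
    · simp only [pder_mon hB, qk, if_true] at e3
      have e4 : (z (Sum.inr (k, 1)) * ∏ j ∈ Finset.univ.erase k, z (Sum.inr (j, 1)) ^ 2) *
          ∑ β : Fin D → Fin (n + 1), a (qk k, β) * ∏ t, z (Sum.inl (β t)) = 0 := by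
        rw [← e3, Finset.mul_sum]
        refine Finset.sum_congr rfl fun β _ => ?_
        simp only [qk]
        ring
      refine (mul_eq_zero.1 e4).resolve_left (mul_ne_zero (hv k) ?_)
      exact Finset.prod_ne_zero_iff.2 fun j _ => pow_ne_zero 2 (hv j)
    · intro q _ hq
      refine Finset.sum_eq_zero fun β _ => ?_
      rw [pder_mon hB, if_neg (fun hh => hq (Subtype.ext hh)), mul_zero]
    · intro hh
      exact absurd (Finset.mem_univ _) hh
  refine gen_nozero (K := K) hm (b := fun p : Fin m × (Fin D → Fin (n + 1)) => a (qk p.1, p.2))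
    ?_ hx h5
  refine ha.comp (fun p : Fin m × (Fin D → Fin (n + 1)) => (qk p.1, p.2)) ?_
  rintro ⟨k, β⟩ ⟨k', β'⟩ hh
  simp only [Prod.mk.injEq] at hh
  exact Prod.ext (hqk hh.1) hh.2

/-- **Smoothness for special coefficients.** -/
theorem exists_disc (hm : n + 2 ≤ m) {G0 : MvPolynomial (Co n m) K}
    (hG : ∀ (Ω : Type) [Field Ω] [Algebra K Ω] (z : Co n m → Ω), Bs z →
      ∀ k, aeval z (pderiv (Sum.inr (k, 0)) G0) = 0) :
    ∃ Δ : MvPolynomial (Par n m D) K, Δ ≠ 0 ∧
      ∀ (Ω : Type) [Field Ω] [Algebra K Ω] (a : Par n m D → Ω) (z : Co n m → Ω) (ν : Ω)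
        (μ : Fin m → Ω), aeval a Δ ≠ 0 → (fun j => z (Sum.inl j)) ≠ 0 →
        (∀ k, (fun c => z (Sum.inr (k, c))) ≠ 0) → (∀ i, sys G0 a z ν μ i = 0) → ν = 0 := by
  classical
  have key : ∀ p : Fin (n + 1) × (Fin m → Fin 3), ∃ Δ : MvPolynomial (Par n m D) K, Δ ≠ 0 ∧
      ∀ (Ω : Type) [Field Ω] [Algebra K Ω] (a : Par n m D → Ω) (z : Co n m → Ω) (ν : Ω)
        (μ : Fin m → Ω), aeval a Δ ≠ 0 → (∀ i, sys G0 a z ν μ i = 0) →
          ν * z (Sum.inl p.1) * ∏ k, z (Sum.inr (k, p.2 k)) = 0 := by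
    intro p
    let τ := Co n m ⊕ Unit ⊕ Fin m
    let Q : Unit ⊕ Fin m ⊕ Co n m → MvPolynomial (Par n m D ⊕ τ) K := fun i =>
      sys G0 (fun α => X (Sum.inl α)) (fun j => X (Sum.inr (Sum.inl j)))
        (X (Sum.inr (Sum.inr (Sum.inl ())))) (fun k => X (Sum.inr (Sum.inr (Sum.inr k)))) i
    have hQ : ∀ (Ω : Type) [Field Ω] [Algebra K Ω] (a : Par n m D → Ω) (v : τ → Ω) (i),
        aeval (Sum.elim a v) (Q i) = sys G0 a (fun j => v (Sum.inl j)) (v (Sum.inr (Sum.inl ())))
          (fun k => v (Sum.inr (Sum.inr k))) i := by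
      intro Ω _ _ a v i
      change aeval (Sum.elim a v) (sys G0 _ _ _ _ i) = _
      rw [sys_map]
      simp only [aeval_X, Sum.elim_inl, Sum.elim_inr]
    obtain ⟨Δ, hΔ, h⟩ := Pool.Agent.N254.SQ.t_spec K (Par n m D) τ _ Q
      (X (Sum.inr (Sum.inr (Sum.inl ()))) * X (Sum.inr (Sum.inl (Sum.inl p.1))) *
        ∏ k, X (Sum.inr (Sum.inl (Sum.inr (k, p.2 k))))) (by
        intro Ω _ _ y v hy hv
        simp only [hQ] at hv
        simp only [map_mul, map_prod, aeval_X, Sum.elim_inr]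
        by_cases h0 : v (Sum.inl (Sum.inl p.1)) = 0
        · rw [h0]
          ring
        by_cases h1 : ∀ k, v (Sum.inl (Sum.inr (k, p.2 k))) ≠ 0
        · have h2 := gen_sys (K := K) hm (hG Ω) hy (z := fun j => v (Sum.inl j))
            (fun hh => h0 (congrFun hh p.1)) (fun k hh => h1 k (congrFun hh (p.2 k))) hv
          rw [h2]
          ring
        · push Not at h1
          obtain ⟨k, hk⟩ := h1
          rw [Finset.prod_eq_zero (Finset.mem_univ k) hk, mul_zero])
    refine ⟨Δ, hΔ, ?_⟩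
    intro Ω _ _ a z ν μ hΔ0 hz
    have h1 := h Ω a (Sum.elim z (Sum.elim (fun _ => ν) μ)) hΔ0 (fun i => by
      rw [hQ]
      exact hz i)
    simpa only [map_mul, map_prod, aeval_X, Sum.elim_inr, Sum.elim_inl] using h1
  choose Δ hΔ hΔ2 using key
  refine ⟨∏ p, Δ p, Finset.prod_ne_zero_iff.2 fun p _ => hΔ p, ?_⟩
  intro Ω _ _ a z ν μ hT hx ht hz
  rw [map_prod] at hT
  obtain ⟨j0, hj0⟩ := Function.ne_iff.1 hx
  choose c hc using fun k => Function.ne_iff.1 (ht k)
  have h1 := hΔ2 (j0, c) Ω a z ν μ (Finset.prod_ne_zero_iff.1 hT _ (Finset.mem_univ _)) hz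
  exact (mul_eq_zero.1 ((mul_eq_zero.1 h1).resolve_right
    (Finset.prod_ne_zero_iff.2 fun k _ => hc k))).resolve_right hj0

end gen

end Pool.Agent.U207.MZ
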